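import Pool.Agent.Helper53.CG.ERc

/-! # ER: the total error term for the weights at the primes -/

set_option autoImplicit false

open Finset Filter Topology

open scoped Classical

namespace Pool.Agent.Helper53.CG

open Pool.Agent.Helper88.CG
open Pool.Agent.Helper88.PP (pr Rg om Sf SS QQ XX)
open Pool.Agent.Helper88.RR (nz)
open Pool.Agent.Helper88.GM (NI XI Sr)
open Pool.Agent.Helper64.RR (mem_pr sum_pr_le fact_est)
open Pool.Agent.Helper74.PP (sum_pr_sq one_sub_sum_le_prod om_lower M_lower ap_exists)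

/-- the difference for the modulus `k D` -/
noncomputable def TT (x k D c : ℕ) : ℝ := |th x (k * D) c - th x k c / (Nat.totient D : ℝ)|

/-- the sum over the coprime labels -/
theorem cop_sum (x y z K Dm r E j : ℕ) (N : Finset ℕ) (P : Finset ℕ) (a X c xx : ℝ)
    (ha : 1 ≤ a) (hX0 : 0 ≤ X) (hz : 2 * (2 * (E / 16)) ≤ z) (hz2 : 2 ≤ z) (hDm : Dm = z ^ (2 * (E / 16)))
    (hsg : ∀ d : P → ℕ, 0 ≤ CN x y z j N d ∧ CN x y z j N d ≤ 2 * X)
    (hxx : 0 ≤ xx) (Q : ℕ) (hQ : 0 < Q)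
    (hEB : ∀ d ∈ (DS z Dm K : Finset (P → ℕ)), Cop d → ∃ f : Finset ℕ → ℕ,
      (∀ A ⊆ pr y z, Nat.Coprime (f A) (Q * (∏ p ∈ A, p) * ∏ i, max 1 (d i))) ∧
      |CN x y z j N d - CN x y z j N (fun i => sg (d i)) /
          (Nat.totient (∏ i, max 1 (d i)) : ℝ)|
      ≤ ∑ A ∈ (pr y z).powerset.filter (fun A => A.card ≤ r), (nz d : ℝ) ^ A.card *
          |th x (Q * (∏ p ∈ A, p) * ∏ i, max 1 (d i)) (f A)
            - th x (Q * ∏ p ∈ A, p) (f A) / (Nat.totient (∏ i, max 1 (d i)) : ℝ)|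
        + 2 * X / (Nat.totient (∏ i, max 1 (d i)) : ℝ) *
            (((nz d : ℝ) * ∑ p ∈ pr y z, 1 / (p : ℝ)) ^ (r + 1) / (r + 1).factorial)
        + 2 * ((nz d : ℝ) * z) ^ (r + 1))
    (hTE : ∀ A ∈ (pr y z).powerset.filter (fun A => A.card ≤ r), ∀ f : ℕ → ℕ,
      (∀ D ∈ SS z (Dm + 1), Nat.Coprime (f D) (Q * (∏ p ∈ A, p) * D)) →
      ∑ D ∈ SS z (Dm + 1), ((3 * K : ℕ) : ℝ) ^ D.primeFactors.card *
        |th x (Q * (∏ p ∈ A, p) * D) (f D) - th x (Q * ∏ p ∈ A, p) (f D) / (Nat.totient D : ℝ)|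
      ≤ c * (xx / ((Q * ∏ p ∈ A, p : ℕ) : ℝ))) (hc : 0 ≤ c) :
    ∑ d ∈ (DS z Dm K : Finset (P → ℕ)).filter (fun d => Cop d),
      (∏ i, (if d i = 0 then 1 else a * 3 ^ (d i).primeFactors.card)) *
      |CN x y z j N d - CN x y z j N (fun i => sg (d i)) *
          ∏ i, (if d i = 0 then 1 else 1 / (d i : ℝ))| ≤
    ((Fintype.card P + 1 : ℕ) : ℝ) ^ K * a ^ K *
        (c * (xx / Q) * Real.exp (K * ∑ p ∈ pr y z, 1 / (p : ℝ)))
      + 4 * X * ((K * ∑ p ∈ pr y z, 1 / (p : ℝ)) ^ (r + 1) / (r + 1).factorial) *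
          (∑ d ∈ (DS z Dm K : Finset (P → ℕ)), ∏ i, hh a (d i))
      + 2 * ((K : ℝ) * z) ^ (r + 1) * Dm *
          (∑ d ∈ (DS z Dm K : Finset (P → ℕ)), ∏ i, hh a (d i))
      + 2 * X * (2 * E / z) * (∑ d ∈ (DS z Dm K : Finset (P → ℕ)), ∏ i, hh a (d i)) := by
  set DC := (DS z Dm K : Finset (P → ℕ)).filter (fun d => Cop d) with hDC
  set S := ∑ d ∈ (DS z Dm K : Finset (P → ℕ)), ∏ i, hh a (d i) with hS
  set σ := ∑ p ∈ pr y z, 1 / (p : ℝ) with hσ
  set PA := (pr y z).powerset.filter (fun A => A.card ≤ r) with hPA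
  set W : (P → ℕ) → ℝ := fun d => ∏ i, (if d i = 0 then 1 else a * 3 ^ (d i).primeFactors.card)
    with hW
  set DD : (P → ℕ) → ℕ := fun d => ∏ i, max 1 (d i) with hDD
  have hσ0 : 0 ≤ σ := Finset.sum_nonneg fun p _ => by positivity
  have hW0 : ∀ d, 0 ≤ W d := fun d => Finset.prod_nonneg fun i _ => by
    split_ifs
    · norm_num
    · positivity
  have hDD1 : ∀ d, 1 ≤ DD d := fun d => Finset.one_le_prod' fun i _ => le_max_left _ _
  have hex : ∀ d : P → ℕ, ∃ f : Finset ℕ → ℕ, d ∈ DC →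
      (∀ A ⊆ pr y z, Nat.Coprime (f A) (Q * (∏ p ∈ A, p) * DD d)) ∧
      |CN x y z j N d - CN x y z j N (fun i => sg (d i)) *
          ∏ i, (if d i = 0 then 1 else 1 / (d i : ℝ))| ≤
        ∑ A ∈ PA, (K : ℝ) ^ A.card * TT x (Q * ∏ p ∈ A, p) (DD d) (f A)
        + 4 * X * ((K * σ) ^ (r + 1) / (r + 1).factorial) * (1 / (DD d : ℝ))
        + 2 * ((K : ℝ) * z) ^ (r + 1) * Dm * (1 / (DD d : ℝ))
        + 2 * X * (2 * E / z) * (1 / (DD d : ℝ)) := by
    intro d
    by_cases hd : d ∈ DC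
    · obtain ⟨hd1, hd2⟩ := mem_filter.1 hd
      obtain ⟨f, hf1, hf2⟩ := hEB d hd1 hd2
      refine ⟨f, fun _ => ⟨hf1, ?_⟩⟩
      obtain ⟨hm1, hm2, hm3⟩ := mem_DS.1 hd1
      have hcp := (cop_prod hd1 hd2).1
      have hsf := (mem_SS.1 hcp).2.2
      have hDle : DD d ≤ Dm := hm2
      have htot := tot_rough z (DD d) (2 * (E / 16)) hz hz2 hsf (hDm ▸ hDle)
      obtain ⟨ht1, ht2, ht3⟩ := htot
      have hD0 : (0 : ℝ) < DD d := by exact_mod_cast hDD1 d
      have hnz : (nz d : ℝ) ≤ K := by exact_mod_cast hm3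
      have hnz0 : (0 : ℝ) ≤ nz d := Nat.cast_nonneg _
      have hz0 : (0 : ℝ) < z := by
        have : 0 < z := by omega
        exact_mod_cast this
      rw [inv_D]
      have htri : |CN x y z j N d - CN x y z j N (fun i => sg (d i)) * (1 / ((∏ i, max 1 (d i) : ℕ) : ℝ))|
          ≤ |CN x y z j N d - CN x y z j N (fun i => sg (d i)) /
            (Nat.totient (∏ i, max 1 (d i)) : ℝ)| +
            CN x y z j N (fun i => sg (d i)) *
              (1 / (Nat.totient (DD d) : ℝ) - 1 / (DD d : ℝ)) := by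
        have e0 : 0 ≤ CN x y z j N (fun i => sg (d i)) *
              (1 / (Nat.totient (DD d) : ℝ) - 1 / (DD d : ℝ)) :=
          mul_nonneg (hsg _).1 (by linarith only [ht2])
        calc |CN x y z j N d - CN x y z j N (fun i => sg (d i)) * (1 / ((∏ i, max 1 (d i) : ℕ) : ℝ))|
            = |(CN x y z j N d - CN x y z j N (fun i => sg (d i)) /
            (Nat.totient (∏ i, max 1 (d i)) : ℝ)) + CN x y z j N (fun i => sg (d i)) *
              (1 / (Nat.totient (DD d) : ℝ) - 1 / (DD d : ℝ))| := by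
                congr 1
                simp only [hDD]
                ring
          _ ≤ _ := by
                refine (abs_add_le _ _).trans ?_
                rw [abs_of_nonneg e0]
      refine htri.trans ?_
      have e1 : CN x y z j N (fun i => sg (d i)) *
              (1 / (Nat.totient (DD d) : ℝ) - 1 / (DD d : ℝ)) ≤
          2 * X * (2 * E / z) * (1 / (DD d : ℝ)) := by
        have e2 : ((2 * (E / 16) : ℕ) : ℝ) ≤ E := by
          have : 2 * (E / 16) ≤ E := by omega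
          exact_mod_cast this
        calc CN x y z j N (fun i => sg (d i)) *
              (1 / (Nat.totient (DD d) : ℝ) - 1 / (DD d : ℝ))
            ≤ (2 * X) * (2 * ((2 * (E / 16) : ℕ) : ℝ) / z * (1 / (DD d : ℝ))) :=
              mul_le_mul (hsg _).2 ht1 (by linarith only [ht2]) (by linarith only [hX0])
          _ ≤ (2 * X) * (2 * E / z * (1 / (DD d : ℝ))) := by gcongr
          _ = _ := by ring
      have e3 : 2 * X / (Nat.totient (∏ i, max 1 (d i)) : ℝ) *
            (((nz d : ℝ) * σ) ^ (r + 1) / (r + 1).factorial) ≤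
          4 * X * ((K * σ) ^ (r + 1) / (r + 1).factorial) * (1 / (DD d : ℝ)) := by
        calc 2 * X / (Nat.totient (∏ i, max 1 (d i)) : ℝ) *
            (((nz d : ℝ) * σ) ^ (r + 1) / (r + 1).factorial)
            = 2 * X * (1 / (Nat.totient (DD d) : ℝ)) *
            (((nz d : ℝ) * σ) ^ (r + 1) / (r + 1).factorial) := by
              simp only [hDD]
              ring
          _ ≤ 2 * X * (2 * (1 / (DD d : ℝ))) * ((K * σ) ^ (r + 1) / (r + 1).factorial) := by
              gcongr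
          _ = _ := by ring
      have e4 : 2 * ((nz d : ℝ) * z) ^ (r + 1) ≤
          2 * ((K : ℝ) * z) ^ (r + 1) * Dm * (1 / (DD d : ℝ)) := by
        have e5 : 1 ≤ (Dm : ℝ) * (1 / (DD d : ℝ)) := by
          rw [mul_one_div, le_div_iff₀ hD0, one_mul]
          exact_mod_cast hDle
        calc 2 * ((nz d : ℝ) * z) ^ (r + 1) ≤ 2 * ((K : ℝ) * z) ^ (r + 1) := by gcongr
          _ = 2 * ((K : ℝ) * z) ^ (r + 1) * 1 := (mul_one _).symm
          _ ≤ 2 * ((K : ℝ) * z) ^ (r + 1) * ((Dm : ℝ) * (1 / (DD d : ℝ))) :=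
              mul_le_mul_of_nonneg_left e5 (by positivity)
          _ = _ := by ring
      have e6 : ∑ A ∈ PA, (nz d : ℝ) ^ A.card *
          |th x (Q * (∏ p ∈ A, p) * ∏ i, max 1 (d i)) (f A)
            - th x (Q * ∏ p ∈ A, p) (f A) / (Nat.totient (∏ i, max 1 (d i)) : ℝ)| ≤
          ∑ A ∈ PA, (K : ℝ) ^ A.card * TT x (Q * ∏ p ∈ A, p) (DD d) (f A) := by
        refine Finset.sum_le_sum fun A _ => ?_
        rw [TT]
        exact mul_le_mul_of_nonneg_right (pow_le_pow_left₀ hnz0 hnz _) (abs_nonneg _)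
      linarith only [hf2, e1, e3, e4, e6]
    · exact ⟨fun _ => 1, fun h => absurd h hd⟩
  choose f hf using hex
  have hle : ∑ d ∈ DC, W d *
      |CN x y z j N d - CN x y z j N (fun i => sg (d i)) *
          ∏ i, (if d i = 0 then 1 else 1 / (d i : ℝ))| ≤
      ∑ d ∈ DC, (W d * ∑ A ∈ PA, (K : ℝ) ^ A.card * TT x (Q * ∏ p ∈ A, p) (DD d) (f d A)
        + (4 * X * ((K * σ) ^ (r + 1) / (r + 1).factorial)
          + 2 * ((K : ℝ) * z) ^ (r + 1) * Dm + 2 * X * (2 * E / z)) * ∏ i, hh a (d i)) := by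
    refine Finset.sum_le_sum fun d hd => ?_
    refine (mul_le_mul_of_nonneg_left (hf d hd).2 (hW0 d)).trans (le_of_eq ?_)
    rw [w_hh]
    simp only [hW, hDD]
    ring
  refine hle.trans ?_
  rw [Finset.sum_add_distrib, ← Finset.mul_sum]
  have hSle : ∑ d ∈ DC, ∏ i, hh a (d i) ≤ S :=
    Finset.sum_le_sum_of_subset_of_nonneg (filter_subset _ _) fun d _ _ =>
      Finset.prod_nonneg fun i _ => hh_nonneg (by linarith only [ha]) _
  have hcoef : 0 ≤ 4 * X * ((K * σ) ^ (r + 1) / (r + 1).factorial)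
          + 2 * ((K : ℝ) * z) ^ (r + 1) * Dm + 2 * X * (2 * E / z) := by positivity
  have hpart2 := mul_le_mul_of_nonneg_left hSle hcoef
  have hpart1 : ∑ d ∈ DC, W d * ∑ A ∈ PA, (K : ℝ) ^ A.card * TT x (Q * ∏ p ∈ A, p) (DD d) (f d A) ≤
      ((Fintype.card P + 1 : ℕ) : ℝ) ^ K * a ^ K * (c * (xx / Q) * Real.exp (K * σ)) := by
    have e1 : ∑ d ∈ DC, W d * ∑ A ∈ PA, (K : ℝ) ^ A.card * TT x (Q * ∏ p ∈ A, p) (DD d) (f d A) =
        ∑ A ∈ PA, (K : ℝ) ^ A.card *
          ∑ d ∈ DC, W d * TT x (Q * ∏ p ∈ A, p) (DD d) (f d A) := by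
      simp only [Finset.mul_sum]
      rw [Finset.sum_comm]
      refine Finset.sum_congr rfl fun A _ => Finset.sum_congr rfl fun d _ => ?_
      ring
    rw [e1]
    have e2 : ∀ A ∈ PA, ∑ d ∈ DC, W d * TT x (Q * ∏ p ∈ A, p) (DD d) (f d A) ≤
        ((Fintype.card P + 1 : ℕ) : ℝ) ^ K * a ^ K * (c * (xx / ((Q * ∏ p ∈ A, p : ℕ) : ℝ))) := by
      intro A hA
      have hAs : A ⊆ pr y z := mem_powerset.1 (mem_filter.1 hA).1
      obtain ⟨b, hb1, hb2⟩ := worst DC DD (fun d => f d A) (TT x (Q * ∏ p ∈ A, p))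
        (fun D u => Nat.Coprime u (Q * (∏ p ∈ A, p) * D)) (fun D => Nat.coprime_one_left _)
        (fun d hd => (hf d hd).1 A hAs)
      calc ∑ d ∈ DC, W d * TT x (Q * ∏ p ∈ A, p) (DD d) (f d A)
          ≤ ∑ d ∈ DC, W d * TT x (Q * ∏ p ∈ A, p) (DD d) (b (DD d)) :=
            Finset.sum_le_sum fun d hd => mul_le_mul_of_nonneg_left (hb2 d hd) (hW0 d)
        _ ≤ ((Fintype.card P + 1 : ℕ) : ℝ) ^ K * a ^ K *
            ∑ D ∈ SS z (Dm + 1), ((3 * K : ℕ) : ℝ) ^ D.primeFactors.card *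
              TT x (Q * ∏ p ∈ A, p) D (b D) :=
            group_le z Dm K a ha (fun D => TT x (Q * ∏ p ∈ A, p) D (b D)) (fun D => abs_nonneg _)
        _ ≤ _ := by
            apply mul_le_mul_of_nonneg_left _ (by positivity)
            exact hTE A hA b fun D _ => hb1 D
    have e3 : ∑ A ∈ PA, (K : ℝ) ^ A.card *
          ∑ d ∈ DC, W d * TT x (Q * ∏ p ∈ A, p) (DD d) (f d A) ≤
        ∑ A ∈ PA, (((Fintype.card P + 1 : ℕ) : ℝ) ^ K * a ^ K * (c * (xx / Q))) *
          ∏ p ∈ A, ((K : ℝ) * (1 / (p : ℝ))) := by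
      refine Finset.sum_le_sum fun A hA => ?_
      refine (mul_le_mul_of_nonneg_left (e2 A hA) (by positivity)).trans (le_of_eq ?_)
      rw [Finset.prod_mul_distrib, Finset.prod_const, Finset.prod_div_distrib,
        Finset.prod_const_one]
      push_cast
      have hQ' : (Q : ℝ) ≠ 0 := by exact_mod_cast hQ.ne'
      have hA0 : (∏ p ∈ A, (p : ℝ)) ≠ 0 := by
        apply Finset.prod_ne_zero_iff.2
        intro p hp
        have := (mem_pr.1 (mem_powerset.1 (mem_filter.1 hA).1 hp)).2.2.pos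
        exact_mod_cast this.ne'
      field_simp
    refine e3.trans ?_
    rw [← Finset.mul_sum]
    have e4 : ∑ A ∈ PA, ∏ p ∈ A, ((K : ℝ) * (1 / (p : ℝ))) ≤ Real.exp (K * σ) := by
      calc ∑ A ∈ PA, ∏ p ∈ A, ((K : ℝ) * (1 / (p : ℝ)))
          ≤ ∑ A ∈ (pr y z).powerset, ∏ p ∈ A, ((K : ℝ) * (1 / (p : ℝ))) :=
            Finset.sum_le_sum_of_subset_of_nonneg (filter_subset _ _) fun A _ _ =>
              Finset.prod_nonneg fun p _ => by positivity
        _ ≤ Real.exp (∑ p ∈ pr y z, (K : ℝ) * (1 / (p : ℝ))) :=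
            sum_pow_le_exp _ _ fun p _ => by positivity
        _ = _ := by rw [← Finset.mul_sum]
    calc ((Fintype.card P + 1 : ℕ) : ℝ) ^ K * a ^ K * (c * (xx / Q)) *
          ∑ A ∈ PA, ∏ p ∈ A, ((K : ℝ) * (1 / (p : ℝ)))
        ≤ ((Fintype.card P + 1 : ℕ) : ℝ) ^ K * a ^ K * (c * (xx / Q)) * Real.exp (K * σ) :=
          mul_le_mul_of_nonneg_left e4 (by positivity)
      _ = _ := by ring
  linarith only [hpart2, hpart1]

theorem er (h1 : StmtEB) (h2 : StmtTE) : StmtER := by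
  intro C hC
  obtain ⟨x0, hEB⟩ := h1
  obtain ⟨c, hc, E1, hTE⟩ := h2
  obtain ⟨c2, hc2, hom⟩ := om_lower
  set c0 : ℝ := min c (1 / 500) with hc0def
  have hc0 : 0 < c0 := lt_min hc (by norm_num)
  have hcc : c0 ≤ c := min_le_left _ _
  have hc5 : c0 ≤ 1 / 500 := min_le_right _ _
  have ha3 : (3 : ℝ) ≤ 3 * C ^ 2 := by nlinarith only [hC]
  have ha1 : (1 : ℝ) ≤ 3 * C ^ 2 := by linarith
  have ha0 : (0 : ℝ) < 3 * C ^ 2 := by linarith
  have hla : 0 ≤ Real.log (3 * C ^ 2) := Real.log_nonneg ha1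
  set M : ℝ := 2 + Real.log (3 * C ^ 2) + 3 * |Real.log c2| with hM
  have habs := abs_nonneg (Real.log c2)
  have hle_abs := le_abs_self (Real.log c2)
  have hM0 : 0 ≤ M := by positivity
  obtain ⟨E2, hE2⟩ := thr c0 M hc0 hM0
  refine ⟨c0 / 2, by positivity, max (max E1 E2) (max x0 2000),
    fun E z x y hE hSr b hb K hK P hP j hj hjP => ?_⟩
  have hE1 : E1 ≤ E := le_trans (le_trans (le_max_left _ _) (le_max_left _ _)) hE
  have hE2' : E2 ≤ E := le_trans (le_trans (le_max_right _ _) (le_max_left _ _)) hE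
  have hEx0 : x0 ≤ E := le_trans (le_trans (le_max_left _ _) (le_max_right _ _)) hE
  have h2000 : 2000 ≤ E := le_trans (le_trans (le_max_right _ _) (le_max_right _ _)) hE
  obtain ⟨hexp, hthr⟩ := hE2 E hE2'
  obtain ⟨hl, hX, hw0, hwexp, hyz, hyw, hx0', hQle⟩ := par E z x y h2000 hSr
  obtain ⟨hz1, hx1, hx2, hy1, hy2, hL3⟩ := id hSr
  have hE' : (2000 : ℝ) ≤ E := by exact_mod_cast h2000
  set l := Real.log (z : ℝ) with hldef
  set L := Real.log (x : ℝ) with hLdef
  set w := Real.log L with hwdef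
  set Q := QQ x with hQdef
  set Dm := z ^ (2 * (E / 16)) with hDmdef
  set X := XI (x / 32) x Q with hXdef
  set σ := ∑ p ∈ pr y z, 1 / (p : ℝ) with hσdef
  have hQ0 : 0 < Q := primorial_pos _
  have hQ0' : (0 : ℝ) < Q := by exact_mod_cast hQ0
  have hz0 : (0 : ℝ) < z := lt_of_lt_of_le (Real.exp_pos _) hz1
  have hexpl : Real.exp l = z := Real.exp_log hz0
  have hxr0 : (0 : ℝ) < x := by exact_mod_cast hx0'
  have hexpL : Real.exp L = x := Real.exp_log hxr0
  have hzE : (E : ℝ) + 1 ≤ z := (Real.add_one_le_exp (E : ℝ)).trans hz1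
  have hzE' : E + 1 ≤ z := by exact_mod_cast hzE
  have hEl : 2000 * l ≤ (E : ℝ) * l := mul_le_mul_of_nonneg_right hE' (by linarith only [hc0, hc5, hE', hl])
  have hEE : (E : ℝ) * E ≤ E * l := mul_le_mul_of_nonneg_left hl (by linarith only [hc0, hc5, hE'])
  have hEE2 : 2000 * (E : ℝ) ≤ E * E := mul_le_mul_of_nonneg_right hE' (by linarith only [hc0, hc5, hE'])
  have hL1 : 1 < L := by linarith only [hc0, hc5, hE', hl, hX, hEl]
  have hzx : z ≤ x := le_trans (Nat.le_self_pow (by omega) z) hx1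
  have hx2' : 2 ≤ x := by omega
  have hxx0 : x0 ≤ x := by omega
  have hy0 : 1 ≤ y := by
    have : (1 : ℝ) ≤ y := by linarith only [hc0, hc5, hE', hl, hy1, hX, hEl]
    exact_mod_cast this
  -- the sizes
  have hzpow : ∀ n : ℕ, ((z ^ n : ℕ) : ℝ) = Real.exp (n * l) := by
    intro n
    rw [Real.exp_nat_mul, hexpl]
    push_cast
    rfl
  have hDmle : (Dm : ℝ) ≤ Real.exp (1 / 8 * (E * l)) := by
    rw [hDmdef, hzpow]
    apply Real.exp_le_exp.2
    have h3 : ((2 * (E / 16) : ℕ) : ℝ) ≤ (E : ℝ) / 8 := by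
      have h4 : 8 * (2 * (E / 16)) ≤ E := by omega
      have h5 : (8 : ℝ) * ((2 * (E / 16) : ℕ) : ℝ) ≤ E := by exact_mod_cast h4
      linarith only [h5]
    have := mul_le_mul_of_nonneg_right h3 (show 0 ≤ l by linarith only [hc0, hc5, hE', hl])
    linarith only [this]
  have hzr : ((z ^ (E / 32) : ℕ) : ℝ) ≤ Real.exp (1 / 32 * (E * l)) := by
    rw [hzpow]
    apply Real.exp_le_exp.2
    have h3 : ((E / 32 : ℕ) : ℝ) ≤ (E : ℝ) / 32 := Nat.cast_div_le
    have := mul_le_mul_of_nonneg_right h3 (show 0 ≤ l by linarith only [hc0, hc5, hE', hl])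
    linarith only [this]
  have hDmx : Dm ≤ x := by
    have h3 : (Dm : ℝ) ≤ x := by
      rw [← hexpL]
      exact hDmle.trans (Real.exp_le_exp.2 (by linarith only [hc0, hc5, hE', hl, hX, hEl]))
    exact_mod_cast h3
  have hDm2 : 2 ≤ Dm := by
    rw [hDmdef]
    exact le_trans (by omega) (Nat.le_self_pow (by omega) z)
  -- the sum of the reciprocals of the primes
  have hsig : ∀ u v : ℕ, 2 ≤ v → v ≤ x → ∑ p ∈ pr u v, 1 / (p : ℝ) ≤ Real.log c2 + w := by
    intro u v hv hvx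
    have h3 := (hom u v hv).1
    have hlv : 0 < Real.log v := Real.log_pos (by exact_mod_cast hv)
    have hlvL : Real.log v ≤ L := Real.log_le_log (by exact_mod_cast (by omega : 0 < v))
      (by exact_mod_cast hvx)
    have h4 : Real.exp (-(Real.log c2 + w)) ≤ om u v := by
      rw [Real.exp_neg, Real.exp_add, Real.exp_log hc2, hwexp]
      refine le_trans ?_ h3
      rw [← one_div]
      apply one_div_le_one_div_of_le (by positivity)
      exact mul_le_mul_of_nonneg_left hlvL hc2.le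
    have h5 := Real.exp_le_exp.1 (h4.trans (sum_pr_le u v))
    linarith only [h5]
  have hσ : σ ≤ Real.log c2 + w := hsig y z (by omega) hzx
  have hσ0 : 0 ≤ σ := Finset.sum_nonneg fun p _ => by positivity
  have hthrK := hthr w hw0 hL3 K hK
  have hthr0 := hthr w hw0 hL3 0 (Nat.zero_le _)
  have hK0 : (0 : ℝ) ≤ K := Nat.cast_nonneg _
  have hKσ : K * σ ≤ c0 / 8 * E := by
    refine le_trans ?_ hthrK
    calc K * σ ≤ K * (Real.log c2 + w) := mul_le_mul_of_nonneg_left hσ hK0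
      _ ≤ ((K : ℝ) + 1) * (M + 5 * w) := by
          apply mul_le_mul (by linarith only [hc0, hc5]) (by rw [hM]; linarith only [hc0, hc5, hla, habs, hle_abs, hw0]) _ (by positivity)
          linarith only [hσ, hσ0]
  -- the sum over all labels
  have hcardP : Fintype.card P ≤ y := by
    rw [Fintype.card_coe]
    exact (card_le_card hP).trans (by simp)
  set S := ∑ d ∈ (DS z Dm K : Finset (P → ℕ)), ∏ i, hh (3 * C ^ 2) (d i) with hSdef
  have hS0 : 0 ≤ S := Finset.sum_nonneg fun d _ => Finset.prod_nonneg fun i _ => hh_nonneg ha0.le _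
  have hSle : S ≤ Real.exp (c0 / 8 * E) := by
    set σ' := ∑ p ∈ pr z Dm, 1 / (p : ℝ) with hσ'
    have hσ'le : σ' ≤ Real.log c2 + w := hsig z Dm hDm2 hDmx
    have hσ'0 : 0 ≤ σ' := Finset.sum_nonneg fun p _ => by positivity
    have h3 : ∑ m ∈ SS z (Dm + 1), (3 * C ^ 2) * 3 ^ m.primeFactors.card / (m : ℝ) ≤
        (3 * C ^ 2) * Real.exp (3 * σ') := by
      refine le_trans (le_of_eq ?_) (mul_le_mul_of_nonneg_left (H_le z Dm) ha0.le)
      rw [Finset.mul_sum]
      exact Finset.sum_congr rfl fun m _ => by ring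
    have h4 : 1 ≤ (3 * C ^ 2) * Real.exp (3 * σ') := by
      have h5 : 1 ≤ Real.exp (3 * σ') := Real.one_le_exp (by positivity)
      calc (1 : ℝ) = 1 * 1 := (one_mul 1).symm
        _ ≤ _ := mul_le_mul ha1 h5 (by norm_num) ha0.le
    have h5 := S_le (ι := P) z Dm K y (3 * C ^ 2) ((3 * C ^ 2) * Real.exp (3 * σ')) ha0.le hcardP hy0
      h4 h3
    refine h5.trans ?_
    have h6 : (y : ℝ) * ((3 * C ^ 2) * Real.exp (3 * σ')) ≤
        Real.exp (2 * w + (Real.log (3 * C ^ 2) + 3 * (Real.log c2 + w))) := by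
      rw [Real.exp_add, Real.exp_add, Real.exp_log ha0]
      gcongr
    calc Real.exp 1 * ((y : ℝ) * ((3 * C ^ 2) * Real.exp (3 * σ'))) ^ K
        ≤ Real.exp 1 * (Real.exp (2 * w + (Real.log (3 * C ^ 2) + 3 * (Real.log c2 + w)))) ^ K := by
          gcongr
      _ = Real.exp (1 + K * (2 * w + (Real.log (3 * C ^ 2) + 3 * (Real.log c2 + w)))) := by
          rw [Real.exp_add 1, Real.exp_nat_mul]
      _ ≤ Real.exp (c0 / 8 * E) := by
          apply Real.exp_le_exp.2
          refine le_trans ?_ hthrK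
          have h7 : (K : ℝ) * (2 * w + (Real.log (3 * C ^ 2) + 3 * (Real.log c2 + w))) ≤
              K * (M + 5 * w) := by
            apply mul_le_mul_of_nonneg_left _ hK0
            rw [hM]
            linarith only [hc0, hc5, hle_abs]
          have h8 : 1 ≤ M + 5 * w := by
            rw [hM]
            linarith only [hc0, hc5, hla, habs, hw0]
          calc _ ≤ (M + 5 * w) + K * (M + 5 * w) := add_le_add h8 h7
            _ = _ := by ring
  have hWle : ((Fintype.card P + 1 : ℕ) : ℝ) ^ K * (3 * C ^ 2) ^ K ≤ Real.exp (c0 / 8 * E) := by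
    have h3 : ((Fintype.card P + 1 : ℕ) : ℝ) * (3 * C ^ 2) ≤
        Real.exp (1 + 2 * w + Real.log (3 * C ^ 2)) := by
      rw [Real.exp_add, Real.exp_log ha0]
      apply mul_le_mul_of_nonneg_right _ ha0.le
      have h4 : ((Fintype.card P + 1 : ℕ) : ℝ) ≤ y + 1 := by
        exact_mod_cast Nat.succ_le_succ hcardP
      have h5 : (1 : ℝ) ≤ Real.exp (2 * w) := Real.one_le_exp (by positivity)
      have h6 : (2 : ℝ) ≤ Real.exp 1 := by
        have := Real.add_one_le_exp (1 : ℝ)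
        linarith only [this]
      calc ((Fintype.card P + 1 : ℕ) : ℝ) ≤ y + 1 := h4
        _ ≤ Real.exp (2 * w) + Real.exp (2 * w) := add_le_add hyw h5
        _ = 2 * Real.exp (2 * w) := by ring
        _ ≤ Real.exp 1 * Real.exp (2 * w) := mul_le_mul_of_nonneg_right h6 (Real.exp_pos _).le
        _ = _ := (Real.exp_add _ _).symm
    rw [← mul_pow]
    calc (((Fintype.card P + 1 : ℕ) : ℝ) * (3 * C ^ 2)) ^ K
        ≤ (Real.exp (1 + 2 * w + Real.log (3 * C ^ 2))) ^ K :=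
          pow_le_pow_left₀ (by positivity) h3 K
      _ = Real.exp (K * (1 + 2 * w + Real.log (3 * C ^ 2))) := (Real.exp_nat_mul _ _).symm
      _ ≤ Real.exp (c0 / 8 * E) := by
          apply Real.exp_le_exp.2
          refine le_trans ?_ hthrK
          apply mul_le_mul (by linarith only [hc0, hc5]) _ (by positivity) (by linarith only [hc0, hc5])
          rw [hM]
          linarith only [hc0, hc5, habs, hw0]
  have hFle : (K * σ) ^ (E / 32 + 1) / ((E / 32 + 1).factorial : ℝ) ≤ Real.exp (-((E : ℝ) / 16)) := by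
    have h3 := fact_est (K * σ) (E / 32 + 1) ((E : ℝ) / 2) (by positivity) (by
      refine hKσ.trans ?_
      have : c0 * E ≤ 1 / 500 * E := mul_le_mul_of_nonneg_right hc5 (by linarith only [hc0, hc5, hE'])
      linarith only [this]) (by
      have h4 : E ≤ 32 * (E / 32 + 1) := by omega
      have h5 : (E : ℝ) ≤ 32 * ((E / 32 + 1 : ℕ) : ℝ) := by exact_mod_cast h4
      linarith only [h5]) (by linarith only [hc0, hc5, hE'])
    refine h3.trans (le_of_eq ?_)
    congr 1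
    ring
  -- the number of integers
  have hXlow : 1 / 2 * Real.exp (65 / 100 * (E * l)) ≤ X := by
    have h3 := M_lower E z x h2000 (by linarith only [hc0, hc5, hE', hl]) hx1 1 one_pos (one_le_pow₀ (by linarith only [hc0, hc5, hE', hzE]))
    rw [div_one] at h3
    refine h3.trans ?_
    rw [XX, hXdef, XI]
    apply div_le_div_of_nonneg_right _ hQ0'.le
    have h4 : x - x / 2 ≤ x - x / 32 := by omega
    exact_mod_cast h4
  have hxQ : (x : ℝ) / Q ≤ 2 * X := by
    rw [hXdef, XI, ← mul_div_assoc]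
    apply div_le_div_of_nonneg_right _ hQ0'.le
    have h4 : x ≤ 2 * (x - x / 32) := by omega
    exact_mod_cast h4
  have hEl0 : 0 ≤ (E : ℝ) * l := by nlinarith only [hc0, hc5, hE', hl, hEl]
  have hX1 : 1 ≤ X := by
    refine le_trans ?_ hXlow
    have := Real.add_one_le_exp (65 / 100 * ((E : ℝ) * l))
    linarith only [hc0, hc5, hE', hl, hEl, this]
  have hX0 : 0 ≤ X := by linarith only [hc0, hc5, hX1]
  have hcard : ((NI (x / 32) x Q b).card : ℝ) ≤ 2 * X := by
    have := NI_card (x / 32) x Q b hb (Nat.div_le_self _ _)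
    linarith only [hX1, this]
  have hsg : ∀ d : P → ℕ, 0 ≤ CN x y z j (NI (x / 32) x Q b) d ∧
      CN x y z j (NI (x / 32) x Q b) d ≤ 2 * X := fun d => by
    obtain ⟨h3, h4⟩ := CN_bd x y z j hx2' (NI (x / 32) x Q b) d
    exact ⟨h3, h4.trans hcard⟩
  have hpQ : ∀ p : ℕ, p.Prime → p ∣ Q → p ≤ z := by
    intro p hp hpd
    have h3 := (Nat.Prime.dvd_primorial_iff hp).1 hpd
    have h4 : (⌊Real.log x / 20⌋₊ : ℝ) ≤ Real.log x / 20 := Nat.floor_le (by
      have : 0 ≤ L := by linarith only [hc0, hc5, hE', hl, hX, hEl]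
      positivity)
    have h5 : (p : ℝ) ≤ (⌊Real.log x / 20⌋₊ : ℝ) := by exact_mod_cast h3
    have h6 : (p : ℝ) ≤ y := by
      have : L / 20 ≤ L := by linarith only [hc0, hc5, hE', hl, hX, hEl]
      linarith only [hc0, hc5, hE', hl, hy1, hX, hEl, h4, h5]
    have h7 : p ≤ y := by exact_mod_cast h6
    omega
  have hK9 : (3 * K) ^ 2 ≤ E := by
    rcases le_or_gt K 9 with h | h
    · have : (3 * K) ^ 2 ≤ (3 * 9) ^ 2 := Nat.pow_le_pow_left (by omega) 2
      omega
    · calc (3 * K) ^ 2 = 9 * K ^ 2 := by ring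
        _ ≤ K * K ^ 2 := Nat.mul_le_mul_right _ h.le
        _ = K ^ 3 := by ring
        _ ≤ E := hK
  -- split
  rw [← Finset.sum_filter_add_sum_filter_not (DS z Dm K : Finset (P → ℕ)) (fun d => Cop d)]
  have hcop := cop_sum x y z K Dm (E / 32) E j (NI (x / 32) x Q b) P (3 * C ^ 2) X
    (Real.exp (-(c * E))) x ha1 hX0 (by omega) (by omega) hDmdef hsg hxr0.le Q hQ0
    (by
      intro d hd hcd
      obtain ⟨hm1, hm2, hm3⟩ := mem_DS.1 hd
      have hsize : Q * z ^ (E / 32) * (∏ i, max 1 (d i)) ^ 2 ≤ x / 32 := by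
        rw [Nat.le_div_iff_mul_le (by norm_num)]
        have h3 : (Q : ℝ) * ((z ^ (E / 32) : ℕ) : ℝ) * ((Dm : ℕ) : ℝ) ^ 2 * 32 ≤ x := by
          have h4 : (32 : ℝ) ≤ Real.exp 31 := by
            have := Real.add_one_le_exp (31 : ℝ)
            linarith only [this]
          calc (Q : ℝ) * ((z ^ (E / 32) : ℕ) : ℝ) * ((Dm : ℕ) : ℝ) ^ 2 * 32
              ≤ Real.exp (7 / 100 * L) * Real.exp (1 / 32 * (E * l)) *
                (Real.exp (1 / 8 * (E * l))) ^ 2 * Real.exp 31 := by gcongr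
            _ = Real.exp (7 / 100 * L + 1 / 32 * (E * l) + 2 * (1 / 8 * (E * l)) + 31) := by
                rw [Real.exp_add, Real.exp_add, Real.exp_add, two_mul, Real.exp_add]
                ring
            _ ≤ Real.exp L := Real.exp_le_exp.2 (by linarith only [hc0, hc5, hE', hl, hX, hEl])
            _ = x := hexpL
        have h5 : Q * z ^ (E / 32) * Dm ^ 2 * 32 ≤ x := by exact_mod_cast h3
        refine le_trans ?_ h5
        have h6 : (∏ i, max 1 (d i)) ^ 2 ≤ Dm ^ 2 := Nat.pow_le_pow_left hm2 2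
        exact Nat.mul_le_mul_right _ (Nat.mul_le_mul_left _ h6)
      exact hEB x y z b j (E / 32) hxx0 hy1 hy2 hyz.le hb hj P hP hjP d
        (fun i => (hm1 i).imp_right fun h => h.2.2) (fun i i' h1 h2 h3 => hcd i i' h1 h2 h3) hsize)
    (by
      intro A hA f hf
      obtain ⟨hA1, hA2⟩ := mem_filter.1 hA
      have hAs := mem_powerset.1 hA1
      have hprodA : ∏ p ∈ A, p ≤ z ^ (E / 32) := by
        calc ∏ p ∈ A, p ≤ ∏ p ∈ A, z := Finset.prod_le_prod' fun p hp => (mem_pr.1 (hAs hp)).2.1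
          _ = z ^ A.card := by rw [Finset.prod_const]
          _ ≤ z ^ (E / 32) := Nat.pow_le_pow_right (by omega) hA2
      have hA0 : 0 < ∏ p ∈ A, p := Finset.prod_pos fun p hp => (mem_pr.1 (hAs hp)).2.2.pos
      refine hTE E z x y hE1 hSr (Q * ∏ p ∈ A, p) (3 * K) (Nat.mul_pos hQ0 hA0) ?_ hK9 ?_ f hf
      · intro p hp hpd
        rcases (Nat.Prime.dvd_mul hp).1 hpd with h | h
        · exact hpQ p hp h
        · obtain ⟨q, hq, h3⟩ := (Nat.Prime.prime hp).exists_mem_finset_dvd h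
          have h4 := mem_pr.1 (hAs hq)
          have h5 := Nat.le_of_dvd h4.2.2.pos h3
          omega
      · have h3 : ((Q : ℝ) * ((z ^ (E / 32) : ℕ) : ℝ) * ((Dm : ℕ) : ℝ)) ^ 4 ≤ x := by
          calc ((Q : ℝ) * ((z ^ (E / 32) : ℕ) : ℝ) * ((Dm : ℕ) : ℝ)) ^ 4
              ≤ (Real.exp (7 / 100 * L) * Real.exp (1 / 32 * (E * l)) *
                Real.exp (1 / 8 * (E * l))) ^ 4 := by gcongr
            _ = Real.exp (((4 : ℕ) : ℝ) * (7 / 100 * L + 1 / 32 * (E * l) + 1 / 8 * (E * l))) := by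
                rw [Real.exp_nat_mul, Real.exp_add, Real.exp_add]
            _ ≤ Real.exp L := Real.exp_le_exp.2 (by push_cast; linarith only [hc0, hc5, hE', hl, hX, hEl])
            _ = x := hexpL
        have h5 : (Q * z ^ (E / 32) * Dm) ^ 4 ≤ x := by exact_mod_cast h3
        refine le_trans (Nat.pow_le_pow_left ?_ 4) h5
        exact Nat.mul_le_mul_right _ (Nat.mul_le_mul_left _ hprodA)) (Real.exp_pos _).le
  have hnon : ∑ d ∈ (DS z Dm K : Finset (P → ℕ)).filter (fun d => ¬ Cop d),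
      (∏ i, (if d i = 0 then 1 else 3 * C ^ 2 * 3 ^ (d i).primeFactors.card)) *
      |CN x y z j (NI (x / 32) x Q b) d - CN x y z j (NI (x / 32) x Q b) (fun i => sg (d i)) *
          ∏ i, (if d i = 0 then 1 else 1 / (d i : ℝ))| ≤
      2 * X * ((y : ℝ) ^ 2 * (9 / z) * S) := by
    calc _ ≤ ∑ d ∈ (DS z Dm K : Finset (P → ℕ)).filter (fun d => ¬ Cop d),
          2 * X * ∏ i, hh (3 * C ^ 2) (d i) := by
          refine Finset.sum_le_sum fun d hd => ?_
          obtain ⟨hd1, hd2⟩ := mem_filter.1 hd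
          obtain ⟨hm1, _, _⟩ := mem_DS.1 hd1
          rw [CN_zero x y z j hyz.le _ hP d (fun i => (hm1 i).imp_right fun h => h.2.2) hd2,
            inv_D, w_hh, zero_sub, abs_neg]
          have h3 : (0 : ℝ) ≤ 1 / ((∏ i, max 1 (d i) : ℕ) : ℝ) := by positivity
          rw [abs_of_nonneg (mul_nonneg (hsg _).1 h3)]
          have h4 : 0 ≤ ∏ i, (if d i = 0 then (1 : ℝ) else
              3 * C ^ 2 * 3 ^ (d i).primeFactors.card) := Finset.prod_nonneg fun i _ => by
            split_ifs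
            · norm_num
            · positivity
          have h5 := mul_le_mul_of_nonneg_right (hsg (fun i => sg (d i))).2 h3
          have h6 := mul_le_mul_of_nonneg_left h5 h4
          refine h6.trans (le_of_eq ?_)
          ring
      _ = 2 * X * ∑ d ∈ (DS z Dm K : Finset (P → ℕ)).filter (fun d => ¬ Cop d),
          ∏ i, hh (3 * C ^ 2) (d i) := by rw [← Finset.mul_sum]
      _ ≤ _ := by
          apply mul_le_mul_of_nonneg_left _ (by positivity)
          exact noncop_le z Dm K y (3 * C ^ 2) ha0.le (by omega) hcardP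
  have hyy : (y : ℝ) ^ 2 ≤ Real.exp (c0 / 8 * E) := by
    calc (y : ℝ) ^ 2 ≤ (Real.exp (2 * w)) ^ 2 := pow_le_pow_left₀ (Nat.cast_nonneg _) hyw 2
      _ = Real.exp (((2 : ℕ) : ℝ) * (2 * w)) := (Real.exp_nat_mul _ _).symm
      _ ≤ Real.exp (c0 / 8 * E) := by
          apply Real.exp_le_exp.2
          refine le_trans ?_ hthr0
          push_cast
          linarith only [hc0, hc5, hla, habs, hw0]
  have hKz : K ≤ z := by
    have : K ≤ K ^ 3 := Nat.le_self_pow (by norm_num) K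
    omega
  have hfin := fin_num E K z c c0 l X (x / Q) S
    (((Fintype.card P + 1 : ℕ) : ℝ) ^ K * (3 * C ^ 2) ^ K)
    ((K * σ) ^ (E / 32 + 1) / ((E / 32 + 1).factorial : ℝ)) (Real.exp (K * σ)) Dm ((y : ℝ) ^ 2)
    h2000 hc0 hcc hc5 hl hexpl hXlow (by positivity) hxQ hS0 hSle hWle (by positivity) hFle
    (Real.exp_le_exp.2 hKσ) (Real.exp_pos _).le (by positivity) hyy hDmle (Nat.cast_nonneg _) hKz
    hexp
  refine le_trans (add_le_add hcop hnon) (le_trans (le_of_eq ?_) hfin)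
  ring

end Pool.Agent.Helper53.CG
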