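import Pool.Agent.Helper88.CG.Goals
import Pool.Agent.Helper64.RR.TL

/-! # ER, part A: combinatorial lemmas about the divisor labels -/

set_option autoImplicit false

open Finset Filter Topology

open scoped Classical

namespace Pool.Agent.Helper53.CG

open Pool.Agent.Helper88.CG
open Pool.Agent.Helper88.PP (pr Rg om Sf SS QQ)
open Pool.Agent.Helper88.RR (nz)
open Pool.Agent.Helper88.GM (NI XI Sr)
open Pool.Agent.Helper64.RR (mem_pr sum_pr_le fact_est)
open Pool.Agent.Helper74.PP (sum_pr_sq one_sub_sum_le_prod om_lower M_lower)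

theorem mem_SS {z X r : ℕ} : r ∈ SS z X ↔ 1 ≤ r ∧ r < X ∧ Sf z r := by
  rw [SS, mem_filter, mem_Ico, and_assoc]

theorem sum_pow_le_exp (s : Finset ℕ) (f : ℕ → ℝ) (hf : ∀ p ∈ s, 0 ≤ f p) :
    ∑ A ∈ s.powerset, ∏ p ∈ A, f p ≤ Real.exp (∑ p ∈ s, f p) := by
  rw [← Finset.prod_add_one, Real.exp_sum]
  exact Finset.prod_le_prod (fun p hp => by have := hf p hp; linarith)
    (fun p _ => Real.add_one_le_exp _)

theorem H_le (z M : ℕ) :
    ∑ m ∈ SS z (M + 1), (3 : ℝ) ^ m.primeFactors.card / m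
      ≤ Real.exp (3 * ∑ p ∈ pr z M, 1 / (p : ℝ)) := by
  have h1 : ∑ m ∈ SS z (M + 1), (3 : ℝ) ^ m.primeFactors.card / m =
      ∑ A ∈ (SS z (M + 1)).image Nat.primeFactors, ∏ p ∈ A, (3 / (p : ℝ)) := by
    rw [Finset.sum_image]
    · refine Finset.sum_congr rfl fun m hm => ?_
      obtain ⟨_, _, h3⟩ := mem_SS.1 hm
      rw [Finset.prod_div_distrib, Finset.prod_const]
      congr 1
      conv_lhs => rw [← Nat.prod_primeFactors_of_squarefree h3.1]
      push_cast
      rfl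
    · intro a ha b hb hab
      obtain ⟨_, _, h3⟩ := mem_SS.1 (mem_coe.1 ha)
      obtain ⟨_, _, h4⟩ := mem_SS.1 (mem_coe.1 hb)
      rw [← Nat.prod_primeFactors_of_squarefree h3.1, ← Nat.prod_primeFactors_of_squarefree h4.1]
      have hab' : a.primeFactors = b.primeFactors := hab
      rw [hab']
  rw [h1]
  have h2 : (SS z (M + 1)).image Nat.primeFactors ⊆ (pr z M).powerset := by
    intro A hA
    obtain ⟨m, hm, rfl⟩ := mem_image.1 hA
    obtain ⟨h3, h4, h5⟩ := mem_SS.1 hm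
    rw [mem_powerset]
    intro p hp
    have hp1 := Nat.prime_of_mem_primeFactors hp
    have hp2 := Nat.dvd_of_mem_primeFactors hp
    have hp3 := Nat.le_of_dvd (by omega) hp2
    exact mem_pr.2 ⟨h5.2 p hp1 hp2, by omega, hp1⟩
  refine (Finset.sum_le_sum_of_subset_of_nonneg h2 fun A _ _ =>
    Finset.prod_nonneg fun p _ => by positivity).trans ?_
  refine (sum_pow_le_exp _ _ fun p _ => by positivity).trans (le_of_eq ?_)
  rw [Finset.mul_sum]
  congr 1
  exact Finset.sum_congr rfl fun p _ => by ring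

/-- the weight of one label -/
noncomputable def hh (a : ℝ) (n : ℕ) : ℝ := if n = 0 then 1 else a * 3 ^ n.primeFactors.card / n

theorem hh_nonneg {a : ℝ} (ha : 0 ≤ a) (n : ℕ) : 0 ≤ hh a n := by
  rw [hh]
  split_ifs
  · norm_num
  · positivity

section
variable {ι : Type} [Fintype ι] [DecidableEq ι]

theorem mem_DS {z D K : ℕ} {d : ι → ℕ} : d ∈ (DS z D K : Finset (ι → ℕ)) ↔
    (∀ i, d i = 0 ∨ (1 ≤ d i ∧ d i < D + 1 ∧ Sf z (d i))) ∧ ∏ i, max 1 (d i) ≤ D ∧ nz d ≤ K := by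
  rw [DS, mem_filter, Fintype.mem_piFinset]
  simp only [mem_insert, mem_SS]

theorem prod_ite_nz (d : ι → ℕ) (t : ℝ) :
    ∏ i, (if d i = 0 then 1 else t) = t ^ nz d := by
  rw [Finset.prod_ite, Finset.prod_const_one, one_mul, Finset.prod_const, nz]

theorem S_le (z D K n : ℕ) (a H : ℝ) (ha : 0 ≤ a) (hn : Fintype.card ι ≤ n) (hn1 : 1 ≤ n)
    (hH1 : 1 ≤ H) (hH : ∑ m ∈ SS z (D + 1), a * 3 ^ m.primeFactors.card / (m : ℝ) ≤ H) :
    ∑ d ∈ (DS z D K : Finset (ι → ℕ)), ∏ i, hh a (d i) ≤ Real.exp 1 * (n * H) ^ K := by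
  have hn' : (1 : ℝ) ≤ n := by exact_mod_cast hn1
  have hnH : 1 ≤ (n : ℝ) * H := by nlinarith
  have hnH0 : 0 < (n : ℝ) * H := by linarith
  set t : ℝ := 1 / (n * H) with ht
  have ht0 : 0 < t := by positivity
  have ht1 : t ≤ 1 := by
    rw [ht, div_le_one hnH0]
    exact hnH
  have h1 : ∀ d ∈ (DS z D K : Finset (ι → ℕ)), ∏ i, hh a (d i) ≤
      (n * H) ^ K * ∏ i, ((if d i = 0 then 1 else t) * hh a (d i)) := by
    intro d hd
    obtain ⟨_, _, h3⟩ := mem_DS.1 hd
    rw [Finset.prod_mul_distrib, prod_ite_nz, ← mul_assoc]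
    have h4 : 0 ≤ ∏ i, hh a (d i) := Finset.prod_nonneg fun i _ => hh_nonneg ha _
    have h5 : (n * H) ^ K * t ^ K = 1 := by
      rw [← mul_pow, ht, mul_one_div_cancel hnH0.ne', one_pow]
    have h6 : 1 ≤ (n * H) ^ K * t ^ nz d := by
      rw [← h5]
      exact mul_le_mul_of_nonneg_left (pow_le_pow_of_le_one ht0.le ht1 h3) (by positivity)
    calc ∏ i, hh a (d i) = 1 * ∏ i, hh a (d i) := (one_mul _).symm
      _ ≤ _ := mul_le_mul_of_nonneg_right h6 h4
  refine (Finset.sum_le_sum h1).trans ?_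
  rw [← Finset.mul_sum, mul_comm]
  refine mul_le_mul_of_nonneg_right ?_ (by positivity)
  have h2 : (DS z D K : Finset (ι → ℕ)) ⊆ Fintype.piFinset (fun _ : ι => insert 0 (SS z (D + 1))) :=
    filter_subset _ _
  refine (Finset.sum_le_sum_of_subset_of_nonneg h2 fun d _ _ =>
    Finset.prod_nonneg fun i _ => mul_nonneg (by split_ifs <;> linarith) (hh_nonneg ha _)).trans ?_
  rw [← Finset.prod_univ_sum (fun _ : ι => insert 0 (SS z (D + 1)))
    (fun _ m => (if m = 0 then 1 else t) * hh a m)]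
  have h3 : ∑ m ∈ insert 0 (SS z (D + 1)), (if m = 0 then 1 else t) * hh a m ≤ 1 + 1 / n := by
    rw [Finset.sum_insert (fun h => by have := (mem_SS.1 h).1; omega)]
    have h4 : ∑ m ∈ SS z (D + 1), (if m = 0 then 1 else t) * hh a m =
        t * ∑ m ∈ SS z (D + 1), a * 3 ^ m.primeFactors.card / (m : ℝ) := by
      rw [Finset.mul_sum]
      refine Finset.sum_congr rfl fun m hm => ?_
      have h5 : m ≠ 0 := by
        have := (mem_SS.1 hm).1
        omega
      rw [if_neg h5, hh, if_neg h5]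
    rw [h4, hh, if_pos rfl, if_pos rfl, one_mul]
    have h6 : t * ∑ m ∈ SS z (D + 1), a * 3 ^ m.primeFactors.card / (m : ℝ) ≤ t * H :=
      mul_le_mul_of_nonneg_left hH ht0.le
    have h7 : t * H = 1 / n := by
      rw [ht]
      field_simp
    linarith
  have h30 : 0 ≤ ∑ m ∈ insert 0 (SS z (D + 1)), (if m = 0 then 1 else t) * hh a m :=
    Finset.sum_nonneg fun m _ => mul_nonneg (by split_ifs <;> linarith) (hh_nonneg ha _)
  rw [Finset.prod_const, Finset.card_univ]
  calc (∑ m ∈ insert 0 (SS z (D + 1)), (if m = 0 then 1 else t) * hh a m) ^ Fintype.card ι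
      ≤ (1 + 1 / (n : ℝ)) ^ Fintype.card ι := pow_le_pow_left₀ h30 h3 _
    _ ≤ (1 + 1 / (n : ℝ)) ^ n := pow_le_pow_right₀ (by
        have : 0 ≤ 1 / (n : ℝ) := by positivity
        linarith) hn
    _ ≤ (Real.exp (1 / n)) ^ n := pow_le_pow_left₀ (by positivity) (by
        have := Real.add_one_le_exp (1 / (n : ℝ))
        linarith) _
    _ = Real.exp 1 := by
        rw [← Real.exp_nat_mul]
        congr 1
        field_simp

/-- the label function `d` is pairwise coprime -/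
def Cop (d : ι → ℕ) : Prop := ∀ i i', i ≠ i' → d i ≠ 0 → d i' ≠ 0 → Nat.Coprime (d i) (d i')

theorem fiber_le (z D K : ℕ) (a : ℝ) (ha : 0 ≤ a) (i i' : ι) (hi : i ≠ i') (p : ℕ)
    (hp : p.Prime) :
    ∑ d ∈ (DS z D K : Finset (ι → ℕ)).filter
      (fun d => d i ≠ 0 ∧ d i' ≠ 0 ∧ p ∣ d i ∧ p ∣ d i'), ∏ k, hh a (d k) ≤
      9 * (1 / (p : ℝ) ^ 2) * ∑ d ∈ (DS z D K : Finset (ι → ℕ)), ∏ k, hh a (d k) := by
  set φ : (ι → ℕ) → (ι → ℕ) := fun d k => if k = i ∨ k = i' then d k / p else d k with hφ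
  have hp0 : (0 : ℝ) < p := by exact_mod_cast hp.pos
  have hmem : ∀ d ∈ (DS z D K : Finset (ι → ℕ)).filter
      (fun d => d i ≠ 0 ∧ d i' ≠ 0 ∧ p ∣ d i ∧ p ∣ d i'), φ d ∈ (DS z D K : Finset (ι → ℕ)) ∧
        ∏ k, hh a (d k) = 9 * (1 / (p : ℝ) ^ 2) * ∏ k, hh a (φ d k) := by
    intro d hd
    obtain ⟨hd, h1, h2, h3, h4⟩ := mem_filter.1 hd
    obtain ⟨h5, h6, h7⟩ := mem_DS.1 hd
    have hk : ∀ k, k = i ∨ k = i' → d k ≠ 0 ∧ p ∣ d k := by
      rintro k (rfl | rfl)
      · exact ⟨h1, h3⟩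
      · exact ⟨h2, h4⟩
    have hpos : ∀ k, k = i ∨ k = i' → 1 ≤ d k / p ∧ d k / p ≤ d k ∧ Sf z (d k / p) := by
      intro k hk1
      obtain ⟨h8, h9⟩ := hk k hk1
      have h10 := (h5 k).resolve_left h8
      refine ⟨Nat.div_pos (Nat.le_of_dvd (by omega) h9) hp.pos, Nat.div_le_self _ _, ?_, ?_⟩
      · exact h10.2.2.1.squarefree_of_dvd (Nat.div_dvd_of_dvd h9)
      · intro q hq hqd
        exact h10.2.2.2 q hq (hqd.trans (Nat.div_dvd_of_dvd h9))
    constructor
    · rw [mem_DS]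
      refine ⟨fun k => ?_, le_trans ?_ h6, le_trans (le_of_eq ?_) h7⟩
      · by_cases hk1 : k = i ∨ k = i'
        · right
          have h11 := hpos k hk1
          have h12 := (h5 k).resolve_left (hk k hk1).1
          simp only [hφ, if_pos hk1]
          exact ⟨h11.1, by omega, h11.2.2⟩
        · simp only [hφ, if_neg hk1]
          exact h5 k
      · refine Finset.prod_le_prod' fun k _ => ?_
        refine max_le_max le_rfl ?_
        simp only [hφ]
        split_ifs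
        · exact Nat.div_le_self _ _
        · exact le_rfl
      · rw [nz, nz]
        congr 1
        ext k
        simp only [mem_filter, mem_univ, true_and, hφ]
        by_cases hk1 : k = i ∨ k = i'
        · rw [if_pos hk1]
          have h11 := (hpos k hk1).1
          have h12 := (hk k hk1).1
          constructor
          · intro _
            exact h12
          · intro _
            omega
        · rw [if_neg hk1]
    · have e1 : ∀ k, hh a (d k) = (if k = i ∨ k = i' then 3 / (p : ℝ) else 1) * hh a (φ d k) := by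
        intro k
        by_cases hk1 : k = i ∨ k = i'
        · have h11 := hpos k hk1
          obtain ⟨h8, h9⟩ := hk k hk1
          have h12 := (h5 k).resolve_left h8
          simp only [hφ, if_pos hk1]
          obtain ⟨m, hm⟩ := h9
          have hm0 : m ≠ 0 := by
            rintro rfl
            exact h8 (by simpa using hm)
          have hdm : d k / p = m := by
            rw [hm]
            exact Nat.mul_div_cancel_left m hp.pos
          have hcop : Nat.Coprime p m := by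
            have := h12.2.2.1
            rw [hm] at this
            exact Nat.coprime_of_squarefree_mul this
          rw [hdm, hm, hh, hh, if_neg (mul_ne_zero hp.ne_zero hm0), if_neg hm0]
          rw [hcop.primeFactors_mul, Finset.card_union_of_disjoint hcop.disjoint_primeFactors,
            hp.primeFactors, card_singleton, pow_add]
          push_cast
          have hm0' : (m : ℝ) ≠ 0 := by exact_mod_cast hm0
          field_simp
        · simp only [hφ, if_neg hk1, one_mul]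
      rw [Finset.prod_congr rfl fun k _ => e1 k, Finset.prod_mul_distrib]
      congr 1
      rw [Finset.prod_ite, Finset.prod_const_one, mul_one, Finset.prod_const]
      have : (univ.filter (fun k => k = i ∨ k = i')).card = 2 := by
        have : (univ.filter (fun k => k = i ∨ k = i')) = {i, i'} := by
          ext k
          simp
        rw [this, card_pair hi]
      rw [this]
      field_simp
      norm_num
  rw [Finset.sum_congr rfl fun d hd => (hmem d hd).2, ← Finset.mul_sum]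
  refine mul_le_mul_of_nonneg_left ?_ (by positivity)
  rw [← Finset.sum_image (f := fun e => ∏ k, hh a (e k)) (g := φ)]
  · refine Finset.sum_le_sum_of_subset_of_nonneg ?_ fun d _ _ =>
      Finset.prod_nonneg fun k _ => hh_nonneg ha _
    intro e he
    obtain ⟨d, hd, rfl⟩ := mem_image.1 he
    exact (hmem d hd).1
  · intro d hd e he hde
    obtain ⟨_, h1, h2, h3, h4⟩ := mem_filter.1 (mem_coe.1 hd)
    obtain ⟨_, h5, h6, h7, h8⟩ := mem_filter.1 (mem_coe.1 he)
    funext k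
    have h9 := congrFun hde k
    simp only [hφ] at h9
    by_cases hk1 : k = i ∨ k = i'
    · rw [if_pos hk1, if_pos hk1] at h9
      have h10 : p ∣ d k := by
        rcases hk1 with rfl | rfl
        · exact h3
        · exact h4
      have h11 : p ∣ e k := by
        rcases hk1 with rfl | rfl
        · exact h7
        · exact h8
      rw [← Nat.div_mul_cancel h10, ← Nat.div_mul_cancel h11, h9]
    · rw [if_neg hk1, if_neg hk1] at h9
      exact h9

theorem noncop_le (z D K n : ℕ) (a : ℝ) (ha : 0 ≤ a) (hz : 1 ≤ z) (hn : Fintype.card ι ≤ n) :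
    ∑ d ∈ (DS z D K : Finset (ι → ℕ)).filter (fun d => ¬ Cop d), ∏ k, hh a (d k) ≤
      (n : ℝ) ^ 2 * (9 / z) * ∑ d ∈ (DS z D K : Finset (ι → ℕ)), ∏ k, hh a (d k) := by
  set S := ∑ d ∈ (DS z D K : Finset (ι → ℕ)), ∏ k, hh a (d k) with hS
  have hS0 : 0 ≤ S := Finset.sum_nonneg fun d _ => Finset.prod_nonneg fun k _ => hh_nonneg ha _
  have h1 : ∑ d ∈ (DS z D K : Finset (ι → ℕ)).filter (fun d => ¬ Cop d), ∏ k, hh a (d k) ≤
      ∑ i : ι, ∑ i' : ι, ∑ p ∈ pr z D, (if i ≠ i' then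
        ∑ d ∈ (DS z D K : Finset (ι → ℕ)).filter
          (fun d => d i ≠ 0 ∧ d i' ≠ 0 ∧ p ∣ d i ∧ p ∣ d i'), ∏ k, hh a (d k) else 0) := by
    have e1 : ∀ (i i' : ι) (p : ℕ), (if i ≠ i' then
        ∑ d ∈ (DS z D K : Finset (ι → ℕ)).filter
          (fun d => d i ≠ 0 ∧ d i' ≠ 0 ∧ p ∣ d i ∧ p ∣ d i'), ∏ k, hh a (d k) else 0) =
        ∑ d ∈ (DS z D K : Finset (ι → ℕ)),
          (if i ≠ i' ∧ d i ≠ 0 ∧ d i' ≠ 0 ∧ p ∣ d i ∧ p ∣ d i' then ∏ k, hh a (d k) else 0) := by
      intro i i' p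
      by_cases h : i ≠ i'
      · rw [if_pos h, Finset.sum_filter]
        refine Finset.sum_congr rfl fun d _ => ?_
        simp only [h, ne_eq, not_false_eq_true, true_and]
      · rw [if_neg h]
        symm
        refine Finset.sum_eq_zero fun d _ => ?_
        rw [if_neg (fun h2 => h h2.1)]
    simp only [e1]
    have e2 : ∑ i : ι, ∑ i' : ι, ∑ p ∈ pr z D, ∑ d ∈ (DS z D K : Finset (ι → ℕ)),
          (if i ≠ i' ∧ d i ≠ 0 ∧ d i' ≠ 0 ∧ p ∣ d i ∧ p ∣ d i' then ∏ k, hh a (d k) else 0) =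
        ∑ d ∈ (DS z D K : Finset (ι → ℕ)), ∑ i : ι, ∑ i' : ι, ∑ p ∈ pr z D,
          (if i ≠ i' ∧ d i ≠ 0 ∧ d i' ≠ 0 ∧ p ∣ d i ∧ p ∣ d i' then ∏ k, hh a (d k) else 0) := by
      rw [Finset.sum_comm]
      rw [Finset.sum_comm (s := (DS z D K : Finset (ι → ℕ)))]
      rw [Finset.sum_comm]
      refine Finset.sum_congr rfl fun i _ => ?_
      rw [Finset.sum_comm (s := (DS z D K : Finset (ι → ℕ)))]
      refine Finset.sum_congr rfl fun i' _ => ?_
      rw [Finset.sum_comm]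
    rw [e2, Finset.sum_filter]
    refine Finset.sum_le_sum fun d hd => ?_
    have hpr0 : 0 ≤ ∏ k, hh a (d k) := Finset.prod_nonneg fun k _ => hh_nonneg ha _
    by_cases hc : Cop d
    · rw [if_neg (not_not.2 hc)]
      exact Finset.sum_nonneg fun i _ => Finset.sum_nonneg fun i' _ => Finset.sum_nonneg fun p _ => by
        split_ifs
        · exact hpr0
        · exact le_rfl
    · rw [if_pos hc]
      rw [Cop] at hc
      push Not at hc
      obtain ⟨i, i', h1, h2, h3, h4⟩ := hc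
      obtain ⟨p, hp, h5, h6⟩ := Nat.Prime.not_coprime_iff_dvd.1 h4
      obtain ⟨h7, h8, h9⟩ := mem_DS.1 hd
      have h10 := (h7 i).resolve_left h2
      have hpm : p ∈ pr z D := by
        have := Nat.le_of_dvd (by omega) h5
        exact mem_pr.2 ⟨h10.2.2.2 p hp h5, by omega, hp⟩
      have hnn : ∀ (j j' : ι) (q : ℕ), 0 ≤ (if j ≠ j' ∧ d j ≠ 0 ∧ d j' ≠ 0 ∧ q ∣ d j ∧ q ∣ d j'
          then ∏ k, hh a (d k) else 0) := by
        intro j j' q
        split_ifs
        · exact hpr0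
        · exact le_rfl
      calc ∏ k, hh a (d k) = (if i ≠ i' ∧ d i ≠ 0 ∧ d i' ≠ 0 ∧ p ∣ d i ∧ p ∣ d i'
          then ∏ k, hh a (d k) else 0) := by rw [if_pos ⟨h1, h2, h3, h5, h6⟩]
        _ ≤ ∑ q ∈ pr z D, (if i ≠ i' ∧ d i ≠ 0 ∧ d i' ≠ 0 ∧ q ∣ d i ∧ q ∣ d i'
          then ∏ k, hh a (d k) else 0) :=
            Finset.single_le_sum (f := fun q => (if i ≠ i' ∧ d i ≠ 0 ∧ d i' ≠ 0 ∧ q ∣ d i ∧ q ∣ d i'
              then ∏ k, hh a (d k) else 0)) (fun q _ => hnn i i' q) hpm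
        _ ≤ ∑ j' : ι, ∑ q ∈ pr z D, (if i ≠ j' ∧ d i ≠ 0 ∧ d j' ≠ 0 ∧ q ∣ d i ∧ q ∣ d j'
          then ∏ k, hh a (d k) else 0) :=
            Finset.single_le_sum (f := fun j' => ∑ q ∈ pr z D,
              (if i ≠ j' ∧ d i ≠ 0 ∧ d j' ≠ 0 ∧ q ∣ d i ∧ q ∣ d j'
              then ∏ k, hh a (d k) else 0)) (fun j' _ => Finset.sum_nonneg fun q _ => hnn i j' q)
              (mem_univ i')
        _ ≤ _ :=
            Finset.single_le_sum (f := fun j => ∑ j' : ι, ∑ q ∈ pr z D,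
              (if j ≠ j' ∧ d j ≠ 0 ∧ d j' ≠ 0 ∧ q ∣ d j ∧ q ∣ d j'
              then ∏ k, hh a (d k) else 0)) (fun j _ => Finset.sum_nonneg fun j' _ =>
                Finset.sum_nonneg fun q _ => hnn j j' q) (mem_univ i)
  refine h1.trans ?_
  have h2 : ∀ i i' : ι, ∑ p ∈ pr z D, (if i ≠ i' then
        ∑ d ∈ (DS z D K : Finset (ι → ℕ)).filter
          (fun d => d i ≠ 0 ∧ d i' ≠ 0 ∧ p ∣ d i ∧ p ∣ d i'), ∏ k, hh a (d k) else 0) ≤
      9 / z * S := by
    intro i i'
    calc ∑ p ∈ pr z D, (if i ≠ i' then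
        ∑ d ∈ (DS z D K : Finset (ι → ℕ)).filter
          (fun d => d i ≠ 0 ∧ d i' ≠ 0 ∧ p ∣ d i ∧ p ∣ d i'), ∏ k, hh a (d k) else 0)
        ≤ ∑ p ∈ pr z D, 9 * (1 / (p : ℝ) ^ 2) * S := by
          refine Finset.sum_le_sum fun p hp => ?_
          by_cases h : i ≠ i'
          · rw [if_pos h]
            exact fiber_le z D K a ha i i' h p (mem_pr.1 hp).2.2
          · rw [if_neg h]
            positivity
      _ = 9 * (∑ p ∈ pr z D, 1 / (p : ℝ) ^ 2) * S := by
          rw [← Finset.sum_mul, ← Finset.mul_sum]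
      _ ≤ 9 * (1 / z) * S := by
          have := sum_pr_sq z D hz
          gcongr
      _ = 9 / z * S := by ring
  calc ∑ i : ι, ∑ i' : ι, ∑ p ∈ pr z D, (if i ≠ i' then
        ∑ d ∈ (DS z D K : Finset (ι → ℕ)).filter
          (fun d => d i ≠ 0 ∧ d i' ≠ 0 ∧ p ∣ d i ∧ p ∣ d i'), ∏ k, hh a (d k) else 0)
      ≤ ∑ i : ι, ∑ i' : ι, 9 / z * S :=
        Finset.sum_le_sum fun i _ => Finset.sum_le_sum fun i' _ => h2 i i'
    _ = (Fintype.card ι : ℝ) ^ 2 * (9 / z) * S := by
        rw [Finset.sum_const, Finset.sum_const, Finset.card_univ, nsmul_eq_mul, nsmul_eq_mul]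
        ring
    _ ≤ _ := by
        have : (Fintype.card ι : ℝ) ≤ n := by exact_mod_cast hn
        gcongr

end

end Pool.Agent.Helper53.CG
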