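import Pool.Agent.Helper53.CG.ERa

/-! # ER, part B: coprime labels -/

set_option autoImplicit false

open Finset Filter Topology

open scoped Classical

namespace Pool.Agent.Helper53.CG

open Pool.Agent.Helper88.CG
open Pool.Agent.Helper88.PP (pr Rg om Sf SS QQ)
open Pool.Agent.Helper88.RR (nz)
open Pool.Agent.Helper88.GM (NI XI Sr)
open Pool.Agent.Helper64.RR (mem_pr sum_pr_le fact_est)
open Pool.Agent.Helper74.PP (sum_pr_sq one_sub_sum_le_prod om_lower M_lower)

theorem worst {α : Type} (s : Finset α) (g a : α → ℕ) (F : ℕ → ℕ → ℝ) (Pp : ℕ → ℕ → Prop)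
    (h1 : ∀ D, Pp D 1) (ha : ∀ d ∈ s, Pp (g d) (a d)) :
    ∃ b : ℕ → ℕ, (∀ D, Pp D (b D)) ∧ ∀ d ∈ s, F (g d) (a d) ≤ F (g d) (b (g d)) := by
  have h : ∀ D : ℕ, ∃ c : ℕ, Pp D c ∧ ∀ d ∈ s, g d = D → F D (a d) ≤ F D c := by
    intro D
    by_cases hne : (s.filter (fun d => g d = D)).Nonempty
    · obtain ⟨e, he, hm⟩ := Finset.exists_max_image _ (fun d => F D (a d)) hne
      obtain ⟨he1, he2⟩ := mem_filter.1 he
      refine ⟨a e, he2 ▸ ha e he1, fun d hd hdD => hm d (mem_filter.2 ⟨hd, hdD⟩)⟩
    · refine ⟨1, h1 D, fun d hd hdD => absurd ⟨d, mem_filter.2 ⟨hd, hdD⟩⟩ hne⟩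
  choose b hb1 hb2 using h
  exact ⟨b, hb1, fun d hd => hb2 (g d) d hd rfl⟩

theorem geom_le (n K : ℕ) : ∑ j ∈ range (K + 1), n ^ j ≤ (n + 1) ^ K := by
  induction K with
  | zero => simp
  | succ K ih =>
    rw [Finset.sum_range_succ]
    have h1 : n ^ K ≤ (n + 1) ^ K := Nat.pow_le_pow_left (Nat.le_succ n) K
    calc ∑ j ∈ range (K + 1), n ^ j + n ^ (K + 1) ≤ (n + 1) ^ K + (n + 1) ^ K * n := by
          rw [pow_succ n K]
          exact Nat.add_le_add ih (Nat.mul_le_mul_right _ h1)
      _ = (n + 1) ^ (K + 1) := by ring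

section
variable {ι : Type} [Fintype ι] [DecidableEq ι]

theorem card_small (K : ℕ) :
    (univ.filter (fun B : Finset ι => B.card ≤ K)).card ≤ (Fintype.card ι + 1) ^ K := by
  have h1 : (univ.filter (fun B : Finset ι => B.card ≤ K)) ⊆
      (range (K + 1)).biUnion (fun j => powersetCard j (univ : Finset ι)) := by
    intro B hB
    rw [mem_biUnion]
    exact ⟨B.card, mem_range.2 (Nat.lt_succ_of_le (mem_filter.1 hB).2),
      mem_powersetCard.2 ⟨subset_univ _, rfl⟩⟩
  refine (card_le_card h1).trans (card_biUnion_le.trans ?_)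
  refine le_trans (Finset.sum_le_sum fun j _ => ?_) (geom_le _ K)
  rw [card_powersetCard, Finset.card_univ]
  exact Nat.choose_le_pow _ _

theorem dvd_prod_max {d : ι → ℕ} {p : ℕ} (hp : p.Prime) (h : p ∣ ∏ i, max 1 (d i)) :
    ∃ i, d i ≠ 0 ∧ p ∣ d i := by
  obtain ⟨i, _, h2⟩ := (Nat.Prime.prime hp).exists_mem_finset_dvd h
  have h3 : d i ≠ 0 := by
    intro h4
    rw [h4] at h2
    exact hp.one_lt.ne' (Nat.dvd_one.1 (by simpa using h2))
  refine ⟨i, h3, ?_⟩
  rwa [max_eq_right (by omega)] at h2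

theorem count_le (z Dm K D : ℕ) :
    ((DS z Dm K : Finset (ι → ℕ)).filter (fun d => Cop d ∧ ∏ i, max 1 (d i) = D)).card ≤
      (Fintype.card ι + 1) ^ K * K ^ D.primeFactors.card := by
  set T := (DS z Dm K : Finset (ι → ℕ)).filter (fun d => Cop d ∧ ∏ i, max 1 (d i) = D) with hT
  rw [Finset.card_eq_sum_card_fiberwise (f := fun d => univ.filter (fun i => d i ≠ 0))
    (t := univ.filter (fun B : Finset ι => B.card ≤ K))]
  · have h1 : ∀ B ∈ univ.filter (fun B : Finset ι => B.card ≤ K),
        (T.filter (fun d => univ.filter (fun i => d i ≠ 0) = B)).card ≤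
          K ^ D.primeFactors.card := by
      intro B hB
      have hB' := (mem_filter.1 hB).2
      have h2 : (T.filter (fun d => univ.filter (fun i => d i ≠ 0) = B)).card ≤
          (Fintype.piFinset (fun _ : D.primeFactors => B.image (fun i => ({i} : Finset ι)))).card := by
        refine card_le_card_of_injOn (fun d p => univ.filter (fun i => d i ≠ 0 ∧ (p : ℕ) ∣ d i))
          ?_ ?_
        · intro d hd
          obtain ⟨hd1, hd2⟩ := mem_filter.1 hd
          obtain ⟨hd3, hd4, hd5⟩ := mem_filter.1 hd1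
          rw [mem_coe, Fintype.mem_piFinset]
          rintro ⟨p, hp⟩
          have hpp := Nat.prime_of_mem_primeFactors hp
          have hpd := Nat.dvd_of_mem_primeFactors hp
          rw [← hd5] at hpd
          obtain ⟨i, hi1, hi2⟩ := dvd_prod_max hpp hpd
          rw [mem_image]
          refine ⟨i, ?_, ?_⟩
          · rw [← hd2]
            exact mem_filter.2 ⟨mem_univ _, hi1⟩
          · ext k
            simp only [mem_singleton, mem_filter, mem_univ, true_and]
            constructor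
            · rintro rfl
              exact ⟨hi1, hi2⟩
            · rintro ⟨hk1, hk2⟩
              by_contra hne
              exact Nat.Prime.not_coprime_iff_dvd.2 ⟨p, hpp, hk2, hi2⟩ (hd4 k i hne hk1 hi1)
        · intro d hd e he hde
          obtain ⟨hd1, hd2⟩ := mem_filter.1 (mem_coe.1 hd)
          obtain ⟨hd3, hd4, hd5⟩ := mem_filter.1 hd1
          obtain ⟨he1, he2⟩ := mem_filter.1 (mem_coe.1 he)
          obtain ⟨he3, he4, he5⟩ := mem_filter.1 he1
          obtain ⟨hd6, _, _⟩ := mem_DS.1 hd3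
          obtain ⟨he6, _, _⟩ := mem_DS.1 he3
          have hD0 : D ≠ 0 := by
            rw [← hd5]
            exact Finset.prod_ne_zero_iff.2 fun i _ => by
              have : 1 ≤ max 1 (d i) := le_max_left _ _
              omega
          funext i
          have hsup : d i ≠ 0 ↔ e i ≠ 0 := by
            have h5 : i ∈ univ.filter (fun i => d i ≠ 0) ↔ i ∈ univ.filter (fun i => e i ≠ 0) := by
              rw [hd2, he2]
            simpa using h5
          by_cases hi : d i = 0
          · have h6 : e i = 0 := by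
              by_contra h7
              exact hsup.2 h7 hi
            rw [hi, h6]
          · have hi' := hsup.1 hi
            have hsd := ((hd6 i).resolve_left hi).2.2.1
            have hse := ((he6 i).resolve_left hi').2.2.1
            rw [← Nat.prod_primeFactors_of_squarefree hsd,
              ← Nat.prod_primeFactors_of_squarefree hse]
            congr 1
            have hdvd : ∀ (f : ι → ℕ), ∏ i, max 1 (f i) = D → f i ≠ 0 → f i ∣ D := by
              intro f hf hfi
              rw [← hf]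
              have h8 : max 1 (f i) = f i := max_eq_right (by omega)
              conv_lhs => rw [← h8]
              exact Finset.dvd_prod_of_mem _ (mem_univ i)
            ext p
            have key : ∀ p : ℕ, p.Prime → p ∣ D → (p ∣ d i ↔ p ∣ e i) := by
              intro p hp hpD
              have h9 := congrFun hde ⟨p, Nat.mem_primeFactors.2 ⟨hp, hpD, hD0⟩⟩
              have h10 : i ∈ univ.filter (fun i => d i ≠ 0 ∧ p ∣ d i) ↔
                  i ∈ univ.filter (fun i => e i ≠ 0 ∧ p ∣ e i) := by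
                have h11 : univ.filter (fun i => d i ≠ 0 ∧ p ∣ d i) =
                  univ.filter (fun i => e i ≠ 0 ∧ p ∣ e i) := h9
                rw [h11]
              simp only [mem_filter, mem_univ, true_and] at h10
              constructor
              · intro h12
                exact (h10.1 ⟨hi, h12⟩).2
              · intro h12
                exact (h10.2 ⟨hi', h12⟩).2
            rw [Nat.mem_primeFactors, Nat.mem_primeFactors]
            constructor
            · rintro ⟨h13, h14, _⟩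
              exact ⟨h13, (key p h13 (h14.trans (hdvd d hd5 hi))).1 h14, hi'⟩
            · rintro ⟨h13, h14, _⟩
              exact ⟨h13, (key p h13 (h14.trans (hdvd e he5 hi'))).2 h14, hi⟩
      refine h2.trans ?_
      rw [Fintype.card_piFinset, Finset.prod_const, Finset.card_univ, Fintype.card_coe]
      exact Nat.pow_le_pow_left (card_image_le.trans hB') _
    refine (Finset.sum_le_sum h1).trans ?_
    rw [Finset.sum_const, smul_eq_mul]
    exact Nat.mul_le_mul_right _ (card_small K)
  · intro d hd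
    obtain ⟨hd1, _⟩ := mem_filter.1 (mem_coe.1 hd)
    obtain ⟨_, _, h3⟩ := mem_DS.1 hd1
    rw [mem_coe, mem_filter]
    exact ⟨mem_univ _, h3⟩

/-- properties of the product of a coprime label function -/
theorem cop_prod {z Dm K : ℕ} {d : ι → ℕ} (hd : d ∈ (DS z Dm K : Finset (ι → ℕ)))
    (hc : Cop d) : (∏ i, max 1 (d i)) ∈ SS z (Dm + 1) ∧
      ∏ i, (if d i = 0 then (1 : ℝ) else 3 ^ (d i).primeFactors.card) =
        3 ^ (∏ i, max 1 (d i)).primeFactors.card := by
  obtain ⟨h1, h2, h3⟩ := mem_DS.1 hd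
  have hpos : ∀ i, 1 ≤ max 1 (d i) := fun i => le_max_left _ _
  have hmax : ∀ i, Sf z (max 1 (d i)) ∧ (if d i = 0 then (1 : ℝ) else 3 ^ (d i).primeFactors.card) =
      3 ^ (max 1 (d i)).primeFactors.card := by
    intro i
    rcases h1 i with h4 | ⟨h4, h5, h6⟩
    · rw [h4, if_pos rfl]
      simp only [zero_le, sup_of_le_left, Nat.primeFactors_one, card_empty, pow_zero, and_true]
      exact ⟨squarefree_one, fun p hp hpd => absurd (Nat.dvd_one.1 hpd) hp.ne_one⟩
    · rw [max_eq_right h4, if_neg (by omega)]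
      exact ⟨h6, rfl⟩
  have hcop : ∀ i i', i ≠ i' → Nat.Coprime (max 1 (d i)) (max 1 (d i')) := by
    intro i i' hii
    rcases h1 i with h4 | ⟨h4, h5, h6⟩
    · rw [h4]
      simp
    · rcases h1 i' with h7 | ⟨h7, h8, h9⟩
      · rw [h7]
        simp
      · rw [max_eq_right h4, max_eq_right h7]
        exact hc i i' hii (by omega) (by omega)
  have hpf : (∏ i, max 1 (d i)).primeFactors = univ.biUnion (fun i => (max 1 (d i)).primeFactors) := by
    ext p
    rw [mem_biUnion, Nat.mem_primeFactors]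
    constructor
    · rintro ⟨hp, hpd, _⟩
      obtain ⟨i, _, h5⟩ := (Nat.Prime.prime hp).exists_mem_finset_dvd hpd
      exact ⟨i, mem_univ i, Nat.mem_primeFactors.2 ⟨hp, h5, by have := hpos i; omega⟩⟩
    · rintro ⟨i, _, h5⟩
      obtain ⟨hp, hpd, _⟩ := Nat.mem_primeFactors.1 h5
      exact ⟨hp, hpd.trans (Finset.dvd_prod_of_mem _ (mem_univ i)),
        Finset.prod_ne_zero_iff.2 fun i _ => by have := hpos i; omega⟩
  have hdisj : ∀ i ∈ (univ : Finset ι), ∀ i' ∈ (univ : Finset ι), i ≠ i' →
      Disjoint (max 1 (d i)).primeFactors (max 1 (d i')).primeFactors :=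
    fun i _ i' _ hii => (hcop i i' hii).disjoint_primeFactors
  refine ⟨mem_SS.2 ⟨Finset.one_le_prod' fun i _ => hpos i, Nat.lt_succ_of_le h2, ?_, ?_⟩, ?_⟩
  · have : ∀ s : Finset ι, Squarefree (∏ i ∈ s, max 1 (d i)) := by
      intro s
      induction s using Finset.induction_on with
      | empty => simp
      | insert a s ha ih =>
        rw [Finset.prod_insert ha]
        rw [Nat.squarefree_mul]
        · exact ⟨(hmax a).1.1, ih⟩
        · exact Nat.Coprime.prod_right fun i hi => hcop a i (by rintro rfl; exact ha hi)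
    exact this univ
  · intro p hp hpd
    obtain ⟨i, _, h5⟩ := (Nat.Prime.prime hp).exists_mem_finset_dvd hpd
    exact (hmax i).1.2 p hp h5
  · rw [hpf, card_biUnion hdisj, Finset.prod_congr rfl fun i _ => (hmax i).2,
      Finset.prod_pow_eq_pow_sum]

theorem w_split (d : ι → ℕ) (a : ℝ) :
    ∏ i, (if d i = 0 then 1 else a * 3 ^ (d i).primeFactors.card) =
      a ^ nz d * ∏ i, (if d i = 0 then (1 : ℝ) else 3 ^ (d i).primeFactors.card) := by
  rw [← prod_ite_nz, ← Finset.prod_mul_distrib]
  refine Finset.prod_congr rfl fun i _ => ?_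
  split_ifs <;> ring

theorem w_hh (d : ι → ℕ) (a : ℝ) :
    ∏ i, hh a (d i) = (∏ i, (if d i = 0 then 1 else a * 3 ^ (d i).primeFactors.card)) *
      (1 / ((∏ i, max 1 (d i) : ℕ) : ℝ)) := by
  push_cast
  rw [one_div, ← Finset.prod_inv_distrib, ← Finset.prod_mul_distrib]
  refine Finset.prod_congr rfl fun i _ => ?_
  rw [hh]
  by_cases h : d i = 0
  · rw [if_pos h, if_pos h, h]
    simp
  · rw [if_neg h, if_neg h]
    have : ((max 1 (d i) : ℕ) : ℝ) = d i := by
      rw [max_eq_right (by omega)]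
    have h2 : max (1 : ℝ) (d i : ℝ) = d i := by
      have : (1 : ℝ) ≤ d i := by
        have : 1 ≤ d i := by omega
        exact_mod_cast this
      exact max_eq_right this
    rw [h2, div_eq_mul_inv]

theorem inv_D (d : ι → ℕ) : ∏ i, (if d i = 0 then 1 else 1 / (d i : ℝ)) =
    1 / ((∏ i, max 1 (d i) : ℕ) : ℝ) := by
  push_cast
  rw [one_div, ← Finset.prod_inv_distrib]
  refine Finset.prod_congr rfl fun i _ => ?_
  by_cases h : d i = 0
  · rw [if_pos h, h]
    simp
  · rw [if_neg h]
    have h2 : max (1 : ℝ) (d i : ℝ) = d i := by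
      have : (1 : ℝ) ≤ d i := by
        have : 1 ≤ d i := by omega
        exact_mod_cast this
      exact max_eq_right this
    rw [h2, one_div]

/-- the sum over the coprime labels, grouped by the product -/
theorem group_le (z Dm K : ℕ) (a : ℝ) (ha : 1 ≤ a) (F : ℕ → ℝ) (hF : ∀ D, 0 ≤ F D) :
    ∑ d ∈ (DS z Dm K : Finset (ι → ℕ)).filter (fun d => Cop d),
      (∏ i, (if d i = 0 then 1 else a * 3 ^ (d i).primeFactors.card)) * F (∏ i, max 1 (d i)) ≤
    ((Fintype.card ι + 1 : ℕ) : ℝ) ^ K * a ^ K *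
      ∑ D ∈ SS z (Dm + 1), ((3 * K : ℕ) : ℝ) ^ D.primeFactors.card * F D := by
  have h1 : ∑ d ∈ (DS z Dm K : Finset (ι → ℕ)).filter (fun d => Cop d),
      (∏ i, (if d i = 0 then 1 else a * 3 ^ (d i).primeFactors.card)) * F (∏ i, max 1 (d i)) ≤
      ∑ d ∈ (DS z Dm K : Finset (ι → ℕ)).filter (fun d => Cop d),
        a ^ K * (3 ^ (∏ i, max 1 (d i)).primeFactors.card * F (∏ i, max 1 (d i))) := by
    refine Finset.sum_le_sum fun d hd => ?_
    obtain ⟨hd1, hd2⟩ := mem_filter.1 hd
    rw [w_split, (cop_prod hd1 hd2).2, mul_assoc]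
    have h2 : a ^ nz d ≤ a ^ K := pow_le_pow_right₀ ha (mem_DS.1 hd1).2.2
    exact mul_le_mul_of_nonneg_right h2 (mul_nonneg (by positivity) (hF _))
  refine h1.trans ?_
  rw [← Finset.sum_fiberwise_of_maps_to (g := fun d => ∏ i, max 1 (d i)) (t := SS z (Dm + 1))]
  · rw [Finset.mul_sum]
    refine Finset.sum_le_sum fun D hD => ?_
    rw [Finset.sum_congr rfl (g := fun _ => a ^ K * (3 ^ D.primeFactors.card * F D))
      (fun d hd => by rw [(mem_filter.1 hd).2]), Finset.sum_const, nsmul_eq_mul]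
    have h2 : ((((DS z Dm K : Finset (ι → ℕ)).filter (fun d => Cop d)).filter
        (fun d => ∏ i, max 1 (d i) = D)).card : ℝ) ≤
        ((Fintype.card ι + 1 : ℕ) : ℝ) ^ K * (K : ℝ) ^ D.primeFactors.card := by
      rw [Finset.filter_filter]
      exact_mod_cast count_le z Dm K D
    have h3 : 0 ≤ a ^ K * (3 ^ D.primeFactors.card * F D) :=
      mul_nonneg (by positivity) (mul_nonneg (by positivity) (hF D))
    refine (mul_le_mul_of_nonneg_right h2 h3).trans (le_of_eq ?_)
    push_cast
    rw [mul_pow]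
    ring
  · intro d hd
    obtain ⟨hd1, hd2⟩ := mem_filter.1 hd
    exact (cop_prod hd1 hd2).1

end

/-- rough numbers have large totient -/
theorem tot_rough (z D E : ℕ) (hz : 2 * E ≤ z) (hz2 : 2 ≤ z) (hD : Sf z D) (hDE : D ≤ z ^ E) :
    1 / (Nat.totient D : ℝ) - 1 / (D : ℝ) ≤ 2 * E / z * (1 / (D : ℝ)) ∧
      1 / (D : ℝ) ≤ 1 / (Nat.totient D : ℝ) ∧ 1 / (Nat.totient D : ℝ) ≤ 2 * (1 / (D : ℝ)) := by
  have hD0 : 0 < D := Nat.pos_of_ne_zero hD.1.ne_zero
  have hD0' : (0 : ℝ) < D := by exact_mod_cast hD0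
  have hz0 : (0 : ℝ) < z := by
    have : 0 < z := by omega
    exact_mod_cast this
  have hom : D.primeFactors.card ≤ E := by
    have h1 : z ^ D.primeFactors.card ≤ D := by
      conv_rhs => rw [← Nat.prod_primeFactors_of_squarefree hD.1]
      rw [← Finset.prod_const]
      exact Finset.prod_le_prod' fun p hp =>
        (hD.2 p (Nat.prime_of_mem_primeFactors hp) (Nat.dvd_of_mem_primeFactors hp)).le
    exact (Nat.pow_le_pow_iff_right (by omega)).1 (h1.trans hDE)
  have hphi : (Nat.totient D : ℝ) = D * ∏ p ∈ D.primeFactors, (1 - 1 / (p : ℝ)) := by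
    have := Nat.totient_eq_mul_prod_factors D
    have h2 : ((Nat.totient D : ℚ) : ℝ) = ((D * ∏ p ∈ D.primeFactors, (1 - (p : ℚ)⁻¹) : ℚ) : ℝ) := by
      rw [this]
    push_cast at h2
    simpa [one_div] using h2
  have hw := one_sub_sum_le_prod D.primeFactors (fun p => 1 / (p : ℝ)) (fun p _ => by positivity)
    (fun p hp => by
      have : (1 : ℝ) ≤ p := by exact_mod_cast (Nat.prime_of_mem_primeFactors hp).one_lt.le
      rw [div_le_one (by linarith)]
      exact this)
  have hsum : ∑ p ∈ D.primeFactors, 1 / (p : ℝ) ≤ E / z := by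
    calc ∑ p ∈ D.primeFactors, 1 / (p : ℝ) ≤ ∑ p ∈ D.primeFactors, 1 / (z : ℝ) := by
          refine Finset.sum_le_sum fun p hp => ?_
          have := hD.2 p (Nat.prime_of_mem_primeFactors hp) (Nat.dvd_of_mem_primeFactors hp)
          exact one_div_le_one_div_of_le hz0 (by exact_mod_cast this.le)
      _ = D.primeFactors.card / z := by
          rw [Finset.sum_const, nsmul_eq_mul]
          ring
      _ ≤ E / z := by
          have : (D.primeFactors.card : ℝ) ≤ E := by exact_mod_cast hom
          gcongr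
  set Pd := ∏ p ∈ D.primeFactors, (1 - 1 / (p : ℝ)) with hPd
  have hEz : (E : ℝ) / z ≤ 1 / 2 := by
    rw [div_le_div_iff₀ hz0 (by norm_num)]
    have : (2 * E : ℝ) ≤ z := by exact_mod_cast hz
    linarith
  have hP1 : 1 - (E : ℝ) / z ≤ Pd := by linarith [hw.1]
  have hP2 : Pd ≤ 1 := hw.2.1
  have hP0 : 1 / 2 ≤ Pd := by linarith
  have hPpos : 0 < Pd := by linarith
  have hEz0 : 0 ≤ (E : ℝ) / z := by positivity
  have hinv : 1 / Pd ≤ 1 + 2 * (E / z) := by
    rw [div_le_iff₀ hPpos]
    nlinarith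
  have h3 : 1 / (Nat.totient D : ℝ) = 1 / Pd * (1 / D) := by
    rw [hphi]
    field_simp
  have h4 : 0 < 1 / (D : ℝ) := by positivity
  rw [h3]
  refine ⟨?_, ?_, ?_⟩
  · have : 2 * (E : ℝ) / z = 2 * (E / z) := by ring
    rw [this]
    nlinarith
  · have : 1 ≤ 1 / Pd := by
      rw [le_div_iff₀ hPpos]
      linarith
    nlinarith
  · have : 1 / Pd ≤ 2 := by linarith
    nlinarith

end Pool.Agent.Helper53.CG
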