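import Pool.Agent.Helper53.CG.ERb

/-! # ER, part C: the counting function and the parameters -/

set_option autoImplicit false

open Finset Filter Topology

open scoped Classical

namespace Pool.Agent.Helper53.CG

open Pool.Agent.Helper88.CG
open Pool.Agent.Helper88.PP (pr Rg om Sf SS QQ XX)
open Pool.Agent.Helper88.RR (nz)
open Pool.Agent.Helper88.GM (NI XI Sr)
open Pool.Agent.Helper64.RR (mem_pr sum_pr_le fact_est)
open Pool.Agent.Helper74.PP (sum_pr_sq one_sub_sum_le_prod om_lower M_lower ap_exists)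

theorem tw_bd (x n : ℕ) : 0 ≤ tw x n ∧ tw x n ≤ 1 := by
  rw [tw]
  refine ⟨le_max_left _ _, max_le (by norm_num) ?_⟩
  have h1 : 0 ≤ |Real.log (4 * n / x)| / Real.log 4 :=
    div_nonneg (abs_nonneg _) (Real.log_nonneg (by norm_num))
  linarith

theorem tw_zero (x n : ℕ) (hx : 1 ≤ x) (hn : x ≤ n) : tw x n = 0 := by
  rw [tw]
  apply max_eq_left
  have hx' : (0 : ℝ) < x := by exact_mod_cast hx
  have hn' : (x : ℝ) ≤ n := by exact_mod_cast hn
  have h4 : 0 < Real.log 4 := Real.log_pos (by norm_num)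
  have h1 : (4 : ℝ) ≤ 4 * n / x := by
    rw [le_div_iff₀ hx']
    linarith
  have h2 : Real.log 4 ≤ Real.log (4 * n / x) := Real.log_le_log (by norm_num) h1
  have h3 : 1 ≤ |Real.log (4 * n / x)| / Real.log 4 := by
    rw [le_div_iff₀ h4, one_mul]
    exact h2.trans (le_abs_self _)
  linarith

theorem pw_bd (x n : ℕ) (hx : 2 ≤ x) : 0 ≤ pw x n ∧ pw x n ≤ 1 := by
  rw [pw]
  split_ifs with hp
  · obtain ⟨h1, h2⟩ := tw_bd x n
    have hlx : 0 < Real.log x := Real.log_pos (by exact_mod_cast hx)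
    have hln : 0 ≤ Real.log n := Real.log_nonneg (by exact_mod_cast hp.one_lt.le)
    refine ⟨mul_nonneg h1 (div_nonneg hln hlx.le), ?_⟩
    rcases le_or_gt x n with h | h
    · rw [tw_zero x n (by omega) h, zero_mul]
      norm_num
    · have h3 : Real.log n / Real.log x ≤ 1 := by
        rw [div_le_one hlx]
        exact Real.log_le_log (by exact_mod_cast hp.pos) (by exact_mod_cast h.le)
      calc tw x n * (Real.log n / Real.log x) ≤ 1 * 1 :=
            mul_le_mul h2 h3 (div_nonneg hln hlx.le) (by norm_num)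
        _ = 1 := one_mul 1
  · norm_num

theorem ic_bd (y z d m : ℕ) : 0 ≤ ic y z d m ∧ ic y z d m ≤ 1 := by
  rw [ic]
  split_ifs <;> norm_num

theorem CN_bd (x y z j : ℕ) (hx : 2 ≤ x) (N : Finset ℕ) {P : Finset ℕ} (d : P → ℕ) :
    0 ≤ CN x y z j N d ∧ CN x y z j N d ≤ N.card := by
  have hp0 : ∀ n, 0 ≤ ∏ i : P, ic y z (d i) (n + (i : ℕ)) := fun n =>
    Finset.prod_nonneg fun i _ => (ic_bd _ _ _ _).1
  have hp1 : ∀ n, ∏ i : P, ic y z (d i) (n + (i : ℕ)) ≤ 1 := fun n =>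
    Finset.prod_le_one (fun i _ => (ic_bd _ _ _ _).1) fun i _ => (ic_bd _ _ _ _).2
  rw [CN]
  constructor
  · exact Finset.sum_nonneg fun n _ => mul_nonneg (pw_bd _ _ hx).1 (hp0 n)
  · calc ∑ n ∈ N, pw x (n + j) * ∏ i : P, ic y z (d i) (n + (i : ℕ))
        ≤ ∑ n ∈ N, (1 : ℝ) := by
          refine Finset.sum_le_sum fun n _ => ?_
          calc pw x (n + j) * ∏ i : P, ic y z (d i) (n + (i : ℕ)) ≤ 1 * 1 :=
                mul_le_mul (pw_bd _ _ hx).2 (hp1 n) (hp0 n) (by norm_num)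
            _ = 1 := one_mul 1
      _ = N.card := by simp

theorem CN_zero (x y z j : ℕ) (hyz : y ≤ z) (N : Finset ℕ) {P : Finset ℕ} (hP : P ⊆ Icc 1 y)
    (d : P → ℕ) (hd : ∀ i, d i = 0 ∨ Sf z (d i)) (hc : ¬ Cop d) : CN x y z j N d = 0 := by
  rw [Cop] at hc
  push Not at hc
  obtain ⟨i, i', h1, h2, h3, h4⟩ := hc
  obtain ⟨p, hp, h5, h6⟩ := Nat.Prime.not_coprime_iff_dvd.1 h4
  have hzp := ((hd i).resolve_left h2).2 p hp h5
  rw [CN]
  refine Finset.sum_eq_zero fun n _ => ?_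
  by_cases hn : d i ∣ n + (i : ℕ)
  · have hn' : ¬ d i' ∣ n + (i' : ℕ) := by
      intro h7
      have h8 : p ∣ n + (i : ℕ) := h5.trans hn
      have h9 : p ∣ n + (i' : ℕ) := h6.trans h7
      have hi1 := mem_Icc.1 (hP i.2)
      have hj1 := mem_Icc.1 (hP i'.2)
      have hne : (i : ℕ) ≠ i' := fun h => h1 (Subtype.ext h)
      rcases lt_or_gt_of_ne hne with h | h
      · have h10 : p ∣ (n + (i' : ℕ)) - (n + (i : ℕ)) := Nat.dvd_sub h9 h8
        have h11 := Nat.le_of_dvd (by omega) h10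
        omega
      · have h10 : p ∣ (n + (i : ℕ)) - (n + (i' : ℕ)) := Nat.dvd_sub h8 h9
        have h11 := Nat.le_of_dvd (by omega) h10
        omega
    rw [Finset.prod_eq_zero (mem_univ i'), mul_zero]
    rw [ic, if_neg h3, if_neg (fun h => hn' h.1)]
  · rw [Finset.prod_eq_zero (mem_univ i), mul_zero]
    rw [ic, if_neg h2, if_neg (fun h => hn h.1)]

theorem NI_card (u v Q b : ℕ) (hb : b < Q) (huv : u ≤ v) :
    ((NI u v Q b).card : ℝ) ≤ XI u v Q + 1 := by
  obtain ⟨a, N, h1, h2⟩ := ap_exists u v Q b (by omega) huv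
  have h3 : NI u v Q b = (range N).image (fun t => a + Q * t) := by
    rw [← h1, NI]
    refine Finset.filter_congr fun n _ => ?_
    rw [Nat.ModEq, Nat.mod_eq_of_lt hb]
  have h4 : ((NI u v Q b).card : ℝ) ≤ N := by
    rw [h3]
    have := card_image_le (s := range N) (f := fun t => a + Q * t)
    rw [card_range] at this
    exact_mod_cast this
  rw [abs_le] at h2
  rw [XI]
  linarith

theorem par (E z x y : ℕ) (hE : 2000 ≤ E) (hSr : Sr E z x y) :
    (E : ℝ) ≤ Real.log z ∧ (E : ℝ) * Real.log z ≤ Real.log x ∧ 0 ≤ Real.log (Real.log x) ∧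
    Real.exp (Real.log (Real.log x)) = Real.log x ∧ y < z ∧
    (y : ℝ) ≤ Real.exp (2 * Real.log (Real.log x)) ∧ 0 < x ∧
    (QQ x : ℝ) ≤ Real.exp (7 / 100 * Real.log x) := by
  obtain ⟨hz1, hx1, hx2, hy1, hy2, hL3⟩ := hSr
  have hE' : (2000 : ℝ) ≤ E := by exact_mod_cast hE
  have hz0 : (0 : ℝ) < z := lt_of_lt_of_le (Real.exp_pos _) hz1
  set l := Real.log (z : ℝ) with hl
  have hl1 : (E : ℝ) ≤ l := by
    rw [hl, Real.le_log_iff_exp_le hz0]
    exact hz1
  have hxz : (z : ℝ) ^ E ≤ x := by exact_mod_cast hx1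
  have hx0 : (0 : ℝ) < x := lt_of_lt_of_le (by positivity) hxz
  have hx0' : 0 < x := by exact_mod_cast hx0
  have hX : (E : ℝ) * l ≤ Real.log x := by
    rw [hl, ← Real.log_pow]
    exact Real.log_le_log (by positivity) hxz
  have hEE : (E : ℝ) * E ≤ E * l := mul_le_mul_of_nonneg_left hl1 (by linarith)
  have hEE2 : 2000 * (E : ℝ) ≤ E * E := mul_le_mul_of_nonneg_right hE' (by linarith)
  have hX1 : 1 < Real.log x := by linarith
  have hX0 : 0 < Real.log x := by linarith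
  set L2 := Real.log (Real.log x) with hL2
  have hL20 : 0 ≤ L2 := Real.log_nonneg hX1.le
  have hexpL2 : Real.exp L2 = Real.log x := Real.exp_log hX0
  have hL2E : 2 * L2 < E := by
    by_contra hcon
    push Not at hcon
    have h1 : (1000 : ℝ) ≤ L2 := by linarith
    have h2 : (1000 : ℝ) ^ 2 ≤ L2 ^ 2 := pow_le_pow_left₀ (by norm_num) h1 2
    have h3 : (1000 : ℝ) ^ 2 * L2 ≤ L2 ^ 3 := by
      calc (1000 : ℝ) ^ 2 * L2 ≤ L2 ^ 2 * L2 := mul_le_mul_of_nonneg_right h2 hL20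
        _ = _ := by ring
    linarith
  have hy3 : (y : ℝ) ≤ Real.exp (2 * L2) := by
    refine hy2.trans (le_of_eq ?_)
    rw [← hexpL2, ← Real.exp_nat_mul]
    norm_num
  have hyz : (y : ℝ) < z := by
    calc (y : ℝ) ≤ Real.exp (2 * L2) := hy3
      _ < Real.exp E := Real.exp_lt_exp.2 hL2E
      _ ≤ z := hz1
  refine ⟨hl1, hX, hL20, hexpL2, by exact_mod_cast hyz, hy3, hx0', ?_⟩
  have h1 : (QQ x : ℝ) ≤ (4 : ℝ) ^ ⌊Real.log x / 20⌋₊ := by
    rw [QQ]
    exact_mod_cast primorial_le_four_pow _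
  refine h1.trans ?_
  have h2 : (4 : ℝ) ^ ⌊Real.log x / 20⌋₊ = Real.exp ((⌊Real.log x / 20⌋₊ : ℝ) * Real.log 4) := by
    rw [mul_comm, Real.exp_mul, Real.exp_log (by norm_num), Real.rpow_natCast]
  rw [h2]
  apply Real.exp_le_exp.2
  have h3 : (⌊Real.log x / 20⌋₊ : ℝ) ≤ Real.log x / 20 := Nat.floor_le (by positivity)
  have h4 : Real.log 4 ≤ 14 / 10 := by
    have : Real.log 4 = 2 * Real.log 2 := by
      rw [show (4 : ℝ) = 2 ^ 2 by norm_num, Real.log_pow]; norm_num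
    rw [this]
    linarith [Real.log_two_lt_d9]
  have h5 : 0 ≤ Real.log 4 := Real.log_nonneg (by norm_num)
  calc (⌊Real.log x / 20⌋₊ : ℝ) * Real.log 4 ≤ Real.log x / 20 * (14 / 10) :=
        mul_le_mul h3 h4 h5 (by positivity)
    _ = 7 / 100 * Real.log x := by ring

theorem thr (c0 M : ℝ) (hc0 : 0 < c0) (hM : 0 ≤ M) : ∃ E0 : ℕ, ∀ E : ℕ, E0 ≤ E →
    25 + 4 * (E : ℝ) ≤ Real.exp (c0 / 4 * E) ∧
    ∀ w : ℝ, 0 ≤ w → w ^ 3 ≤ E → ∀ k : ℕ, k ^ 3 ≤ E →
      ((k : ℝ) + 1) * (M + 5 * w) ≤ c0 / 8 * E := by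
  have hA : ∀ᶠ E : ℕ in atTop, 25 + 4 * (E : ℝ) ≤ Real.exp (c0 / 4 * E) := by
    have h1 : Tendsto (fun E : ℕ => c0 / 4 * (E : ℝ)) atTop atTop :=
      tendsto_natCast_atTop_atTop.const_mul_atTop (by positivity)
    have h2 := (Real.tendsto_exp_div_pow_atTop 1).comp h1
    filter_upwards [h2.eventually_ge_atTop (116 / c0), eventually_ge_atTop 1] with E hE hE1
    simp only [Function.comp_def, pow_one] at hE
    have hE1' : (1 : ℝ) ≤ E := by exact_mod_cast hE1
    have h3 : 0 < c0 / 4 * (E : ℝ) := by positivity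
    rw [le_div_iff₀ h3] at hE
    have h4 : 116 / c0 * (c0 / 4 * (E : ℝ)) = 29 * E := by
      field_simp
      ring
    rw [h4] at hE
    linarith
  obtain ⟨E1, hE1⟩ := eventually_atTop.1 hA
  obtain ⟨n, hn⟩ := exists_nat_ge ((16 * (M + 5) / c0) ^ 3)
  refine ⟨max E1 (max n 1), fun E hE => ⟨hE1 E (le_trans (le_max_left _ _) hE), ?_⟩⟩
  intro w hw0 hw k hk
  have hnE : n ≤ E := le_trans (le_trans (le_max_left _ _) (le_max_right _ _)) hE
  have h1E : 1 ≤ E := le_trans (le_trans (le_max_right _ _) (le_max_right _ _)) hE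
  have hnE' : (n : ℝ) ≤ E := by exact_mod_cast hnE
  have h1E' : (1 : ℝ) ≤ E := by exact_mod_cast h1E
  set t : ℝ := (E : ℝ) ^ ((1 : ℝ) / 3) with ht
  have ht3 : t ^ 3 = E := by
    rw [ht, ← Real.rpow_natCast, ← Real.rpow_mul (by linarith)]
    norm_num
  have ht0 : 0 ≤ t := by positivity
  have ht1 : 1 ≤ t := by
    rw [ht]
    exact Real.one_le_rpow h1E' (by norm_num)
  have hkt : (k : ℝ) ≤ t := by
    apply le_of_pow_le_pow_left₀ (n := 3) (by norm_num) ht0
    rw [ht3]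
    exact_mod_cast hk
  have hwt : w ≤ t := by
    apply le_of_pow_le_pow_left₀ (n := 3) (by norm_num) ht0
    rw [ht3]
    exact hw
  have hMt : 16 * (M + 5) / c0 ≤ t := by
    apply le_of_pow_le_pow_left₀ (n := 3) (by norm_num) ht0
    rw [ht3]
    exact hn.trans hnE'
  have hMt' : 16 * (M + 5) ≤ t * c0 := by
    rwa [div_le_iff₀ hc0] at hMt
  calc ((k : ℝ) + 1) * (M + 5 * w) ≤ (2 * t) * (M * t + 5 * t) := by
        apply mul_le_mul (by linarith) _ (by positivity) (by positivity)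
        have : M * 1 ≤ M * t := mul_le_mul_of_nonneg_left ht1 hM
        linarith
    _ = t ^ 2 * (2 * (M + 5)) := by ring
    _ ≤ t ^ 2 * (t * c0 / 8) := by
        apply mul_le_mul_of_nonneg_left _ (by positivity)
        linarith
    _ = c0 / 8 * t ^ 3 := by ring
    _ = c0 / 8 * E := by rw [ht3]

/-- the final estimate -/
theorem fin_num (E K z : ℕ) (c c0 l X xQ S W F G Dm y2 : ℝ) (hE : 2000 ≤ E) (hc0 : 0 < c0)
    (hcc : c0 ≤ c) (hc5 : c0 ≤ 1 / 500) (hl : (E : ℝ) ≤ l) (hz : Real.exp l = z)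
    (hX : 1 / 2 * Real.exp (65 / 100 * (E * l)) ≤ X) (hxQ0 : 0 ≤ xQ) (hxQ : xQ ≤ 2 * X)
    (hS0 : 0 ≤ S) (hS : S ≤ Real.exp (c0 / 8 * E))
    (hW : W ≤ Real.exp (c0 / 8 * E)) (hF0 : 0 ≤ F) (hF : F ≤ Real.exp (-(E / 16)))
    (hG : G ≤ Real.exp (c0 / 8 * E)) (hG0 : 0 ≤ G) (hy0 : 0 ≤ y2)
    (hy : y2 ≤ Real.exp (c0 / 8 * E))
    (hDm : Dm ≤ Real.exp (1 / 8 * (E * l))) (hDm0 : 0 ≤ Dm) (hKz : K ≤ z)
    (hexp : 25 + 4 * (E : ℝ) ≤ Real.exp (c0 / 4 * E)) :
    W * (Real.exp (-(c * E)) * xQ * G) + 4 * X * F * S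
      + 2 * ((K : ℝ) * z) ^ (E / 32 + 1) * Dm * S + 2 * X * (2 * E / z) * S
      + 2 * X * (y2 * (9 / z) * S) ≤ Real.exp (-(c0 / 2 * E)) * X := by
  have hE' : (2000 : ℝ) ≤ E := by exact_mod_cast hE
  set q := Real.exp (-(3 / 4 * c0 * E)) with hq
  have hq0 : 0 < q := Real.exp_pos _
  have hX0 : 0 < X := lt_of_lt_of_le (by positivity) hX
  set B := Real.exp (c0 / 8 * E) with hB
  have hB0 : 0 < B := Real.exp_pos _
  have hzpos : (0 : ℝ) < z := by rw [← hz]; exact Real.exp_pos _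
  have hz1 : 1 / (z : ℝ) ≤ Real.exp (-E) := by
    rw [Real.exp_neg, ← one_div]
    apply one_div_le_one_div_of_le (Real.exp_pos _)
    rw [← hz]
    exact Real.exp_le_exp.2 hl
  have hcE0 : 0 ≤ c0 * E := by positivity
  have hcE : c0 * E ≤ 1 / 500 * E := mul_le_mul_of_nonneg_right hc5 (by linarith)
  -- T1
  have t1 : W * (Real.exp (-(c * E)) * xQ * G) ≤ 2 * X * q := by
    have e1 : Real.exp (-(c * E)) ≤ Real.exp (-(c0 * E)) := by
      apply Real.exp_le_exp.2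
      have : c0 * E ≤ c * E := mul_le_mul_of_nonneg_right hcc (by linarith)
      linarith
    calc W * (Real.exp (-(c * E)) * xQ * G) ≤ B * (Real.exp (-(c0 * E)) * (2 * X) * B) := by
          gcongr
      _ = 2 * X * (B * Real.exp (-(c0 * E)) * B) := by ring
      _ = 2 * X * q := by
          rw [hB, hq, ← Real.exp_add, ← Real.exp_add]
          congr 2
          ring
  -- T2
  have t2 : 4 * X * F * S ≤ 4 * X * q := by
    calc 4 * X * F * S ≤ 4 * X * Real.exp (-(E / 16)) * B := by gcongr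
      _ = 4 * X * Real.exp (-(E / 16) + c0 / 8 * E) := by rw [Real.exp_add, hB]; ring
      _ ≤ 4 * X * q := by
          apply mul_le_mul_of_nonneg_left _ (by positivity)
          apply Real.exp_le_exp.2
          linarith
  have hzB : 1 / (z : ℝ) * B * B ≤ q := by
    calc 1 / (z : ℝ) * B * B ≤ Real.exp (-E) * B * B := by gcongr
      _ = Real.exp (-E + c0 / 8 * E + c0 / 8 * E) := by rw [Real.exp_add, Real.exp_add, hB]
      _ ≤ q := Real.exp_le_exp.2 (by linarith)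
  have hB1 : 1 ≤ B := Real.one_le_exp (by positivity)
  have hzB1 : 1 / (z : ℝ) * B ≤ q := by
    refine le_trans ?_ hzB
    have h0 : 0 ≤ 1 / (z : ℝ) * B := by positivity
    calc 1 / (z : ℝ) * B = 1 / (z : ℝ) * B * 1 := (mul_one _).symm
      _ ≤ _ := mul_le_mul_of_nonneg_left hB1 h0
  -- T6
  have t6 : 2 * X * (2 * E / z) * S ≤ 4 * E * X * q := by
    calc 2 * X * (2 * E / z) * S ≤ 2 * X * (2 * E / z) * B := by gcongr
      _ = 4 * E * X * (1 / z * B) := by ring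
      _ ≤ _ := mul_le_mul_of_nonneg_left hzB1 (by positivity)
  -- T7
  have t7 : 2 * X * (y2 * (9 / z) * S) ≤ 18 * X * q := by
    calc 2 * X * (y2 * (9 / z) * S) ≤ 2 * X * (B * (9 / z) * B) := by gcongr
      _ = 18 * X * (1 / z * B * B) := by ring
      _ ≤ _ := mul_le_mul_of_nonneg_left hzB (by positivity)
  -- T3
  have t3 : 2 * ((K : ℝ) * z) ^ (E / 32 + 1) * Dm * S ≤ X * q := by
    have hKz' : (K : ℝ) ≤ z := by exact_mod_cast hKz
    have h1 : ((K : ℝ) * z) ^ (E / 32 + 1) ≤ Real.exp (1 / 16 * (E * l) + 2 * l) := by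
      calc ((K : ℝ) * z) ^ (E / 32 + 1) ≤ ((z : ℝ) * z) ^ (E / 32 + 1) := by gcongr
        _ = Real.exp (((E / 32 + 1 : ℕ) : ℝ) * (2 * l)) := by
            rw [Real.exp_nat_mul, two_mul, Real.exp_add, hz]
        _ ≤ _ := by
            apply Real.exp_le_exp.2
            have h2 : ((E / 32 + 1 : ℕ) : ℝ) ≤ E / 32 + 1 := by
              push_cast
              have : ((E / 32 : ℕ) : ℝ) ≤ (E : ℝ) / 32 := Nat.cast_div_le
              linarith
            have h3 := mul_le_mul_of_nonneg_right h2 (show 0 ≤ 2 * l by linarith)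
            calc ((E / 32 + 1 : ℕ) : ℝ) * (2 * l) ≤ ((E : ℝ) / 32 + 1) * (2 * l) := h3
              _ = _ := by ring
    have h4 : (4 : ℝ) ≤ Real.exp 3 := by
      have := Real.add_one_le_exp (3 : ℝ)
      linarith
    have hEl : 2000 * l ≤ (E : ℝ) * l := mul_le_mul_of_nonneg_right hE' (by linarith)
    have hEE : (E : ℝ) * E ≤ E * l := mul_le_mul_of_nonneg_left hl (by linarith)
    have hEE2 : 2000 * (E : ℝ) ≤ E * E := mul_le_mul_of_nonneg_right hE' (by linarith)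
    calc 2 * ((K : ℝ) * z) ^ (E / 32 + 1) * Dm * S
        ≤ 2 * Real.exp (1 / 16 * (E * l) + 2 * l) * Real.exp (1 / 8 * (E * l)) * B := by gcongr
      _ = 4 * (1 / 2 * (Real.exp (1 / 16 * (E * l) + 2 * l) * Real.exp (1 / 8 * (E * l)) * B)) := by
          ring
      _ ≤ Real.exp 3 *
          (1 / 2 * (Real.exp (1 / 16 * (E * l) + 2 * l) * Real.exp (1 / 8 * (E * l)) * B)) :=
          mul_le_mul_of_nonneg_right h4 (by positivity)
      _ = 1 / 2 * Real.exp (3 + (1 / 16 * (E * l) + 2 * l) + 1 / 8 * (E * l) + c0 / 8 * E) := by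
          rw [Real.exp_add (3 + (1 / 16 * (E * l) + 2 * l) + 1 / 8 * (E * l)) (c0 / 8 * E),
            Real.exp_add (3 + (1 / 16 * (E * l) + 2 * l)) (1 / 8 * (E * l)),
            Real.exp_add 3 (1 / 16 * (E * l) + 2 * l), hB]
          ring
      _ ≤ 1 / 2 * Real.exp (65 / 100 * (E * l) + -(3 / 4 * c0 * E)) := by
          apply mul_le_mul_of_nonneg_left _ (by norm_num)
          apply Real.exp_le_exp.2
          linarith
      _ = 1 / 2 * Real.exp (65 / 100 * (E * l)) * q := by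
          rw [Real.exp_add, hq]
          ring
      _ ≤ X * q := mul_le_mul_of_nonneg_right hX hq0.le
  have hfin : (25 + 4 * (E : ℝ)) * q ≤ Real.exp (-(c0 / 2 * E)) := by
    calc (25 + 4 * (E : ℝ)) * q ≤ Real.exp (c0 / 4 * E) * q :=
          mul_le_mul_of_nonneg_right hexp hq0.le
      _ = Real.exp (-(c0 / 2 * E)) := by
          rw [hq, ← Real.exp_add]
          congr 1
          ring
  have hfin2 := mul_le_mul_of_nonneg_right hfin hX0.le
  calc _ ≤ 2 * X * q + 4 * X * q + X * q + 4 * E * X * q + 18 * X * q := by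
        linarith
    _ = (25 + 4 * (E : ℝ)) * q * X := by ring
    _ ≤ _ := hfin2

end Pool.Agent.Helper53.CG
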